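import Mathlib

set_option autoImplicit false

namespace Pool.Agent.V1120.TreeQI

open SimpleGraph

/-- quasi-isometry of (vertex sets of) graphs -/
def QI {V W : Type*} (G : SimpleGraph V) (H : SimpleGraph W) : Prop :=
  ∃ (f : V → W) (K : ℕ), (∀ x y, H.dist (f x) (f y) ≤ K * G.dist x y + K) ∧
    (∀ x y, G.dist x y ≤ K * H.dist (f x) (f y) + K) ∧ ∀ z, ∃ x, H.dist (f x) z ≤ K

section tree

variable {Q : Type*} (lev : Q → ℕ) (par : Q → Q) (hpar : ∀ a, lev a ≠ 0 → lev (par a) + 1 = lev a)
  (r : Q) (hr : ∀ a, lev a = 0 → a = r)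

/-- graph of a parent map -/
def pg : SimpleGraph Q where
  Adj a b := (lev a = lev b + 1 ∧ par a = b) ∨ (lev b = lev a + 1 ∧ par b = a)
  symm := ⟨fun a b h => h.symm⟩
  loopless := ⟨fun a h => by rcases h with h | h <;> omega⟩

include hpar in
theorem adj_par (a : Q) (ha : lev a ≠ 0) : (pg lev par).Adj a (par a) :=
  Or.inl ⟨(hpar a ha).symm, rfl⟩

include hpar hr in
theorem pg_reach (a : Q) : (pg lev par).Reachable a r := by
  generalize hn : lev a = n
  induction n generalizing a with
  | zero => rw [hr a hn]
  | succ n ih =>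
    have h1 := adj_par lev par hpar a (by omega)
    have h2 := hpar a (by omega)
    exact h1.reachable.trans (ih (par a) (by omega))

/-- descendants -/
def Desc (a b : Q) : Prop := ∃ k, par^[k] b = a ∧ lev b = lev a + k

theorem bridge (a : Q) (ha : (pg lev par).Adj a (par a)) (hlev : lev a = lev (par a) + 1) :
    ¬ ((pg lev par).deleteEdges {s(a, par a)}).Reachable a (par a) := by
  have key : ∀ b c, ((pg lev par).deleteEdges {s(a, par a)}).Reachable b c →
      Desc lev par a b → Desc lev par a c := by
    rintro b c ⟨p⟩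
    induction p with
    | nil => exact id
    | @cons u v w h p ih =>
      intro hd
      apply ih
      obtain ⟨k, hk, hl⟩ := hd
      rw [SimpleGraph.deleteEdges_adj] at h
      obtain ⟨h1, h2⟩ := h
      rcases h1 with ⟨h3, h4⟩ | ⟨h3, h4⟩
      · cases k with
        | zero =>
          exfalso
          apply h2
          simp only [Function.iterate_zero, id_eq] at hk
          subst hk
          rw [h4]
          rfl
        | succ k =>
          refine ⟨k, ?_, by omega⟩
          rw [← h4]
          exact hk
      · refine ⟨k + 1, ?_, by omega⟩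
        rw [Function.iterate_succ, Function.comp_apply, h4, hk]
  intro h
  obtain ⟨k, hk, hl⟩ := key _ _ h ⟨0, rfl, rfl⟩
  omega

include hpar hr in
theorem pg_tree : (pg lev par).IsTree := by
  refine ⟨?_, ?_⟩
  · have : Nonempty Q := ⟨r⟩
    refine ⟨fun a b => (pg_reach lev par hpar r hr a).trans (pg_reach lev par hpar r hr b).symm⟩
  · rw [isAcyclic_iff_forall_adj_isBridge]
    intro a b hab
    rw [isBridge_iff]
    rcases hab with ⟨h1, rfl⟩ | ⟨h1, rfl⟩
    · exact bridge lev par a (Or.inl ⟨h1, rfl⟩) h1
    · intro h
      apply bridge lev par b (Or.inl ⟨h1, rfl⟩) h1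
      rw [Sym2.eq_swap]
      exact h.symm

end tree

section main

universe w

variable {V : Type w} (G : SimpleGraph V) (hG : G.Connected) (o : V)

def Out (n : ℕ) (x y : V) : Prop := ∃ p : G.Walk x y, ∀ z ∈ p.support, n ≤ G.dist o z

theorem Out.refl {n : ℕ} {x : V} (h : n ≤ G.dist o x) : Out G o n x x :=
  ⟨Walk.nil, by simpa using h⟩

variable {G o} in
theorem Out.symm {n : ℕ} {x y : V} (h : Out G o n x y) : Out G o n y x := by
  obtain ⟨p, hp⟩ := h
  exact ⟨p.reverse, by simpa using hp⟩

variable {G o} in
theorem Out.trans {n : ℕ} {x y z : V} (h : Out G o n x y) (h' : Out G o n y z) :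
    Out G o n x z := by
  obtain ⟨p, hp⟩ := h
  obtain ⟨q, hq⟩ := h'
  refine ⟨p.append q, fun w hw => ?_⟩
  rw [Walk.mem_support_append_iff] at hw
  rcases hw with hw | hw
  · exact hp w hw
  · exact hq w hw

variable {G o} in
theorem Out.mono {n m : ℕ} {x y : V} (h : Out G o n x y) (hm : m ≤ n) : Out G o m x y := by
  obtain ⟨p, hp⟩ := h
  exact ⟨p, fun z hz => hm.trans (hp z hz)⟩

variable {G o} in
theorem Out.of_adj {n : ℕ} {x y : V} (h : G.Adj x y) (hx : n ≤ G.dist o x)
    (hy : n ≤ G.dist o y) : Out G o n x y := by
  refine ⟨Walk.cons h Walk.nil, fun z hz => ?_⟩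
  simp only [Walk.support_cons, Walk.support_nil, List.mem_cons, List.not_mem_nil, or_false] at hz
  rcases hz with rfl | rfl
  · exact hx
  · exact hy

/-- spheres components -/
def st : Setoid V where
  r x y := G.dist o x = G.dist o y ∧ Out G o (G.dist o x) x y
  iseqv :=
    { refl := fun _ => ⟨rfl, Out.refl G o le_rfl⟩
      symm := fun h => ⟨h.1.symm, h.1 ▸ h.2.symm⟩
      trans := fun h h' => ⟨h.1.trans h'.1, h.2.trans (h.1 ▸ h'.2)⟩ }

theorem exists_pr (hG : G.Connected) (x : V) (hx : G.dist o x ≠ 0) :
    ∃ x', G.Adj x x' ∧ G.dist o x' + 1 = G.dist o x := by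
  obtain ⟨p, hp⟩ := hG.exists_walk_length_eq_dist x o
  cases p with
  | nil => simp at hx
  | @cons _ v _ h p =>
    refine ⟨v, h, ?_⟩
    rw [Walk.length_cons] at hp
    have h1 : G.dist o v ≤ p.length := by rw [dist_comm]; exact dist_le p
    have h2 := hG.dist_triangle (u := x) (v := v) (w := o)
    have h3 : G.dist x v ≤ 1 := by
      have := dist_le (Walk.cons h Walk.nil)
      simpa using this
    rw [dist_comm] at hp
    rw [dist_comm (u := x) (v := o), dist_comm (u := v) (v := o)] at h2
    omega

open Classical in
/-- predecessor -/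
noncomputable def pr (x : V) : V :=
  if h : ∃ x', G.Adj x x' ∧ G.dist o x' + 1 = G.dist o x then h.choose else x

include hG in
theorem pr_spec (x : V) (hx : G.dist o x ≠ 0) :
    G.Adj x (pr G o x) ∧ G.dist o (pr G o x) + 1 = G.dist o x := by
  have h := exists_pr G o hG x hx
  unfold pr
  rw [dif_pos h]
  exact h.choose_spec

theorem pr_zero (x : V) (hx : G.dist o x = 0) : pr G o x = x := by
  unfold pr
  rw [dif_neg]
  rintro ⟨x', -, h⟩
  omega

include hG in
theorem pr_rel (x y : V) (h : (st G o).r x y) : (st G o).r (pr G o x) (pr G o y) := by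
  obtain ⟨h1, h2⟩ := h
  by_cases h0 : G.dist o x = 0
  · rw [pr_zero G o x h0, pr_zero G o y (h1 ▸ h0)]
    exact ⟨h1, h2⟩
  · obtain ⟨a1, a2⟩ := pr_spec G hG o x h0
    obtain ⟨b1, b2⟩ := pr_spec G hG o y (h1 ▸ h0)
    refine ⟨by omega, ?_⟩
    have e1 : Out G o (G.dist o (pr G o x)) (pr G o x) x := Out.of_adj a1.symm le_rfl (by omega)
    have e2 : Out G o (G.dist o (pr G o x)) x y := h2.mono (by omega)
    have e3 : Out G o (G.dist o (pr G o x)) y (pr G o y) := Out.of_adj b1 (by omega) (by omega)
    exact (e1.trans e2).trans e3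

noncomputable def lv : Quotient (st G o) → ℕ := Quotient.lift (G.dist o) (fun _ _ h => h.1)

noncomputable def parQ : Quotient (st G o) → Quotient (st G o) :=
  Quotient.map (pr G o) (fun x y h => pr_rel G hG o x y h)

include hG in
theorem main (C : ℕ) (hC : ∀ x y, G.dist o x = G.dist o y → Out G o (G.dist o x) x y →
    G.dist x y ≤ C) :
    ∃ (Q : Type w) (H : SimpleGraph Q), H.IsTree ∧ QI G H := by
  have hpar : ∀ a, lv G o a ≠ 0 → lv G o (parQ G hG o a) + 1 = lv G o a := by
    intro a
    induction a using Quotient.inductionOn with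
    | h x =>
      intro hx
      exact (pr_spec G hG o x hx).2
  have hr : ∀ a, lv G o a = 0 → a = Quotient.mk (st G o) o := by
    intro a
    induction a using Quotient.inductionOn with
    | h x =>
      intro hx
      have : G.dist o x = 0 := hx
      rw [hG.dist_eq_zero_iff] at this
      rw [this]
  have htree := pg_tree (lv G o) (parQ G hG o) hpar _ hr
  refine ⟨Quotient (st G o), pg (lv G o) (parQ G hG o), htree, Quotient.mk (st G o), C + 1,
    ?_, ?_, ?_⟩
  · -- Lipschitz
    intro x y
    have step : ∀ x y, G.Adj x y → (pg (lv G o) (parQ G hG o)).dist (Quotient.mk (st G o) x)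
        (Quotient.mk (st G o) y) ≤ 1 := by
      have aux : ∀ x y, G.Adj x y → G.dist o y = G.dist o x + 1 →
          (pg (lv G o) (parQ G hG o)).Adj (Quotient.mk (st G o) x) (Quotient.mk (st G o) y) := by
        intro x y hxy h
        right
        refine ⟨h, ?_⟩
        apply Quotient.sound
        obtain ⟨b1, b2⟩ := pr_spec G hG o y (by omega)
        refine ⟨by omega, ?_⟩
        have e1 : Out G o (G.dist o (pr G o y)) (pr G o y) y := Out.of_adj b1.symm le_rfl (by omega)
        have e2 : Out G o (G.dist o (pr G o y)) y x := Out.of_adj hxy.symm (by omega) (by omega)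
        exact e1.trans e2
      intro x y hxy
      have h1 := hG.dist_triangle (u := o) (v := x) (w := y)
      have h2 := hG.dist_triangle (u := o) (v := y) (w := x)
      have h3 : G.dist x y = 1 := dist_eq_one_iff_adj.mpr hxy
      have h4 : G.dist y x = 1 := dist_eq_one_iff_adj.mpr hxy.symm
      rcases Nat.lt_trichotomy (G.dist o x) (G.dist o y) with h | h | h
      · exact (dist_eq_one_iff_adj.mpr (aux x y hxy (by omega))).le
      · have : Quotient.mk (st G o) x = Quotient.mk (st G o) y := by
          apply Quotient.sound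
          exact ⟨h, Out.of_adj hxy le_rfl (by omega)⟩
        rw [this]
        simp
      · exact (dist_eq_one_iff_adj.mpr (aux y x hxy.symm (by omega)).symm).le
    have walkb : ∀ {x y : V} (p : G.Walk x y), (pg (lv G o) (parQ G hG o)).dist
        (Quotient.mk (st G o) x) (Quotient.mk (st G o) y) ≤ p.length := by
      intro x y p
      induction p with
      | nil => simp
      | @cons u v w h p ih =>
        rw [Walk.length_cons]
        have h1 := htree.1.dist_triangle (u := Quotient.mk (st G o) u)
          (v := Quotient.mk (st G o) v) (w := Quotient.mk (st G o) w)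
        have h2 := step u v h
        omega
    obtain ⟨p, hp⟩ := hG.exists_walk_length_eq_dist x y
    have h1 := walkb p
    rw [hp] at h1
    nlinarith [Nat.zero_le (C * G.dist x y)]
  · -- lower bound
    have walkb : ∀ {a b : Quotient (st G o)} (p : (pg (lv G o) (parQ G hG o)).Walk a b),
        ∀ x y, Quotient.mk (st G o) x = a → Quotient.mk (st G o) y = b →
        G.dist x y ≤ (C + 1) * p.length + C := by
      intro a b p
      induction p with
      | nil =>
        intro x y hx hy
        have h1 : (st G o).r x y := Quotient.exact (hx.trans hy.symm)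
        have := hC x y h1.1 h1.2
        simp only [Walk.length_nil]
        omega
      | @cons a b c h p ih =>
        intro x y hx hy
        subst hx
        rw [Walk.length_cons]
        rcases h with ⟨h1, h2⟩ | ⟨h1, h2⟩
        · have h3 : G.dist o x ≠ 0 := by
            have : lv G o (Quotient.mk (st G o) x) = G.dist o x := rfl
            omega
          obtain ⟨a1, a2⟩ := pr_spec G hG o x h3
          have h4 := ih (pr G o x) y h2 hy
          have h5 := hG.dist_triangle (u := x) (v := pr G o x) (w := y)
          have h6 : G.dist x (pr G o x) = 1 := dist_eq_one_iff_adj.mpr a1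
          nlinarith
        · obtain ⟨z, rfl⟩ := Quotient.exists_rep b
          have h3 : G.dist o z ≠ 0 := by
            have : lv G o (Quotient.mk (st G o) z) = G.dist o z := rfl
            omega
          obtain ⟨a1, a2⟩ := pr_spec G hG o z h3
          have h4 := ih z y rfl hy
          have h7 : (st G o).r (pr G o z) x := Quotient.exact h2
          have h8 := hC _ _ h7.1 h7.2
          have h5 := hG.dist_triangle (u := x) (v := pr G o z) (w := y)
          have h9 := hG.dist_triangle (u := pr G o z) (v := z) (w := y)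
          have h6 : G.dist (pr G o z) z = 1 := dist_eq_one_iff_adj.mpr a1.symm
          rw [dist_comm] at h8
          nlinarith
    intro x y
    obtain ⟨p, hp⟩ := htree.1.exists_walk_length_eq_dist (Quotient.mk (st G o) x)
      (Quotient.mk (st G o) y)
    have := walkb p x y rfl rfl
    rw [hp] at this
    omega
  · intro z
    obtain ⟨x, rfl⟩ := Quotient.exists_rep z
    exact ⟨x, by simp⟩

end main

end Pool.Agent.V1120.TreeQI
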