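import Mathlib

/-!
# The real inequalities behind the explicit Gehring exponent

`U p ε x y t` is a Bellman type function for the quadruple average of `w`, average of `w ^ p`, running
maximum of the averages of `w`.
-/

set_option autoImplicit false

namespace Pool.Agent.V1120.Geh

/-- Young's inequality in tangent line form. -/
lemma young (p r s : ℝ) (hp : 1 ≤ p) (hr : 0 ≤ r) (hs : 0 < s) :
    p * s ^ (p - 1) * r ≤ r ^ p + (p - 1) * s ^ p := by
  have h1 : 1 + p * (r / s - 1) ≤ (1 + (r / s - 1)) ^ p :=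
    one_add_mul_self_le_rpow_one_add (by have : 0 ≤ r / s := by positivity
                                         linarith) hp
  have h2 : (1 + (r / s - 1)) = r / s := by ring
  rw [h2, Real.div_rpow hr hs.le] at h1
  have h3 : 0 < s ^ p := Real.rpow_pos_of_pos hs p
  have h4 : s ^ p = s ^ (p - 1) * s := by
    rw [← Real.rpow_add_one hs.ne']; congr 1; ring
  have h5 : (1 + p * (r / s - 1)) * s ^ p ≤ r ^ p := by
    rwa [le_div_iff₀ h3] at h1
  have h6 : (1 + p * (r / s - 1)) * s ^ p = s ^ p - p * s ^ p + p * s ^ (p - 1) * r := by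
    have : r / s * s ^ p = s ^ (p - 1) * r := by
      rw [h4]; field_simp
    calc (1 + p * (r / s - 1)) * s ^ p = s ^ p - p * s ^ p + p * (r / s * s ^ p) := by ring
      _ = _ := by rw [this]; ring
  rw [h6] at h5
  linarith

/-- the Bellman function -/
noncomputable def U (p ε x y t : ℝ) : ℝ :=
  2 * t ^ ε * y + (p - 1) * (1/2) ^ p * t ^ (p + ε) - p * (1/2) ^ (p - 1) * t ^ (p + ε - 1) * x

/-- the admissible size of `2 K ^ p ε 2 ^ (d p)` -/
noncomputable def eta (p : ℝ) : ℝ := p * (p - 1) * (1/2) ^ (p - 1) * (1/2)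

lemma eta_pos (p : ℝ) (hp : 1 < p) : 0 < eta p := by
  unfold eta
  have : 0 < p - 1 := by linarith
  positivity

lemma half_rpow (p : ℝ) : ((1:ℝ)/2) ^ p = (1/2) ^ (p - 1) * (1/2) := by
  rw [← Real.rpow_add_one (by norm_num)]; congr 1; ring

/-- terminal inequality -/
lemma U_term (p ε x y t : ℝ) (hp : 1 < p) (hx : 0 ≤ x) (ht : 0 < t) (hy : x ^ p ≤ y) :
    y * t ^ ε ≤ U p ε x y t := by
  unfold U
  have h1 := young p x (t * (1/2)) hp.le hx (by positivity)
  rw [Real.mul_rpow ht.le (by norm_num), Real.mul_rpow ht.le (by norm_num)] at h1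
  have h2 : 0 < t ^ ε := Real.rpow_pos_of_pos ht ε
  have e1 : t ^ (p + ε) = t ^ p * t ^ ε := Real.rpow_add ht p ε
  have e2 : t ^ (p + ε - 1) = t ^ (p - 1) * t ^ ε := by
    rw [← Real.rpow_add ht]; congr 1; ring
  rw [e1, e2]
  have h3 : (p * (t ^ (p - 1) * (1/2) ^ (p - 1)) * x) * t ^ ε
      ≤ (x ^ p + (p - 1) * (t ^ p * (1/2) ^ p)) * t ^ ε :=
    mul_le_mul_of_nonneg_right h1 h2.le
  have h4 : x ^ p * t ^ ε ≤ y * t ^ ε := mul_le_mul_of_nonneg_right hy h2.le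
  nlinarith [h3, h4]

/-- one step inequality at a point where the running maximum increases -/
lemma U_jump (p ε x y t K S : ℝ) (hp : 1 < p) (hε : 0 < ε) (hε1 : ε ≤ 1) (ht : 0 < t) (hx : t ≤ x)
    (hxS : x ≤ S * t) (hK : 0 ≤ K) (hy : y ≤ K ^ p * x ^ p)
    (hsmall : 2 * K ^ p * ε * S ^ p ≤ eta p) :
    U p ε x y x ≤
      2 * t ^ ε * y + (p - 1) * (1/2) ^ p * t ^ (p + ε) - p * (1/2) ^ (p - 1) * t ^ (p + ε - 1) * x := by
  unfold U
  obtain ⟨s, rfl⟩ : ∃ s, x = s * t := ⟨x / t, by field_simp⟩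
  have hs1 : 1 ≤ s := by
    by_contra h
    push Not at h
    nlinarith
  have hsS : s ≤ S := le_of_mul_le_mul_right hxS ht
  have hs0 : 0 < s := by linarith
  have hst : 0 < s * t := by positivity
  have e0 : (s * t) ^ (p + ε - 1) * (s * t) = (s * t) ^ (p + ε) := by
    rw [← Real.rpow_add_one hst.ne']; congr 1; ring
  have e1 : t ^ (p + ε - 1) * t = t ^ (p + ε) := by
    rw [← Real.rpow_add_one ht.ne']; congr 1; ring
  have e2 : (s * t) ^ (p + ε) = s ^ p * s ^ ε * t ^ (p + ε) := by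
    rw [Real.mul_rpow hs0.le ht.le, Real.rpow_add hs0]
  have e3 : (s * t) ^ ε = s ^ ε * t ^ ε := Real.mul_rpow hs0.le ht.le
  have e4 : (s * t) ^ p = s ^ p * t ^ p := Real.mul_rpow hs0.le ht.le
  have e5 : t ^ (p + ε) = t ^ p * t ^ ε := Real.rpow_add ht p ε
  have hsp : 0 < s ^ p := Real.rpow_pos_of_pos hs0 p
  have hse1 : 1 ≤ s ^ ε := Real.one_le_rpow hs1 hε.le
  have hse : s ^ ε ≤ 1 + ε * (s - 1) := by
    have := rpow_one_add_le_one_add_mul_self (s := s - 1) (by linarith) hε.le hε1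
    simpa using this
  have hsp1 : 1 + p * (s - 1) ≤ s ^ p := by
    have := one_add_mul_self_le_rpow_one_add (s := s - 1) (by linarith) hp.le
    simpa using this
  have hT : 0 < t ^ (p + ε) := Real.rpow_pos_of_pos ht _
  have hTe : 0 < t ^ ε := Real.rpow_pos_of_pos ht _
  -- the constants
  set b : ℝ := (p - 1) * (1/2) ^ p with hb
  set c : ℝ := p * (1/2) ^ (p - 1) with hc
  have hbc : p * (c - b) - c = eta p := by
    rw [hb, hc, half_rpow p, eta]; ring
  have hhalf : 0 < ((1:ℝ)/2) ^ (p - 1) := Real.rpow_pos_of_pos (by norm_num) _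
  have hcb : 0 ≤ c - b := by
    have : c - b = (1/2) ^ (p - 1) * ((p + 1) / 2) := by
      rw [hb, hc, half_rpow p]; ring
    rw [this]; positivity
  -- reduce
  have hKp : 0 ≤ K ^ p := Real.rpow_nonneg hK p
  have hLHS : 2 * y * (t ^ ε * (s ^ ε - 1)) ≤ 2 * (K ^ p * (s ^ p * t ^ p)) * (t ^ ε * (s ^ ε - 1)) := by
    have h0 : 0 ≤ t ^ ε * (s ^ ε - 1) := mul_nonneg hTe.le (by linarith)
    rw [e4] at hy
    nlinarith [mul_le_mul_of_nonneg_right hy h0]
  have hLHS2 : 2 * (K ^ p * (s ^ p * t ^ p)) * (t ^ ε * (s ^ ε - 1)) ≤ t ^ (p + ε) * (eta p * (s - 1)) := by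
    have h0 : s ^ p ≤ S ^ p := Real.rpow_le_rpow hs0.le hsS (by linarith)
    have h1 : 2 * K ^ p * s ^ p * (s ^ ε - 1) ≤ 2 * K ^ p * S ^ p * (ε * (s - 1)) := by
      have a1 : 2 * K ^ p * s ^ p ≤ 2 * K ^ p * S ^ p := by
        apply mul_le_mul_of_nonneg_left h0 (by positivity)
      have a2 : s ^ ε - 1 ≤ ε * (s - 1) := by linarith
      apply mul_le_mul a1 a2 (by linarith)
      have : 0 ≤ S ^ p := hsp.le.trans h0
      positivity
    have h2 : 2 * K ^ p * S ^ p * (ε * (s - 1)) ≤ eta p * (s - 1) := by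
      have := mul_le_mul_of_nonneg_right hsmall (show 0 ≤ s - 1 by linarith)
      nlinarith [this]
    have h3 : 2 * K ^ p * s ^ p * (s ^ ε - 1) ≤ eta p * (s - 1) := h1.trans h2
    have h4 := mul_le_mul_of_nonneg_left h3 hT.le
    calc 2 * (K ^ p * (s ^ p * t ^ p)) * (t ^ ε * (s ^ ε - 1))
        = t ^ (p + ε) * (2 * K ^ p * s ^ p * (s ^ ε - 1)) := by rw [e5]; ring
      _ ≤ _ := h4
  have hRHS : t ^ (p + ε) * (eta p * (s - 1)) ≤ t ^ (p + ε) * ((c - b) * (s ^ p * s ^ ε) + b - c * s) := by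
    apply mul_le_mul_of_nonneg_left _ hT.le
    have h1 : s ^ p ≤ s ^ p * s ^ ε := by nlinarith
    have h2 : (c - b) * (1 + p * (s - 1)) ≤ (c - b) * (s ^ p * s ^ ε) :=
      mul_le_mul_of_nonneg_left (hsp1.trans h1) hcb
    nlinarith [hbc, h2]
  have hfin := (hLHS.trans hLHS2).trans hRHS
  have g1 : c * (s * t) ^ (p + ε - 1) * (s * t) = c * (s ^ p * s ^ ε * t ^ (p + ε)) := by
    rw [mul_assoc, e0, e2]
  have g2 : c * t ^ (p + ε - 1) * (s * t) = c * s * t ^ (p + ε) := by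
    rw [← e1]; ring
  rw [g1, g2, e2, e3]
  nlinarith [hfin]

/-- one step inequality -/
lemma U_step (p ε x y t K S : ℝ) (hp : 1 < p) (hε : 0 < ε) (hε1 : ε ≤ 1) (ht : 0 < t)
    (hxS : x ≤ S * t) (hK : 0 ≤ K) (hy : y ≤ K ^ p * x ^ p)
    (hsmall : 2 * K ^ p * ε * S ^ p ≤ eta p) :
    U p ε x y (max t x) ≤
      2 * t ^ ε * y + (p - 1) * (1/2) ^ p * t ^ (p + ε) - p * (1/2) ^ (p - 1) * t ^ (p + ε - 1) * x := by
  rcases le_total x t with h | h
  · rw [max_eq_left h]; exact le_rfl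
  · rw [max_eq_right h]
    exact U_jump p ε x y t K S hp hε hε1 ht h hxS hK hy hsmall

/-- initial inequality -/
lemma U_init (p ε x y K : ℝ) (hp : 1 < p) (hε : 0 < ε) (hx : 0 < x) (hK : 1 ≤ K)
    (hy : y ≤ K ^ p * x ^ p) :
    U p ε x y x ≤ 2 * K ^ (p + ε) * x ^ (p + ε) := by
  unfold U
  have e1 : x ^ (p + ε) = x ^ p * x ^ ε := Real.rpow_add hx p ε
  have e2 : x ^ (p + ε - 1) * x = x ^ (p + ε) := by
    rw [← Real.rpow_add_one hx.ne']; congr 1; ring
  have h1 : 0 < x ^ ε := Real.rpow_pos_of_pos hx ε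
  have h2 : 0 < x ^ (p + ε) := Real.rpow_pos_of_pos hx _
  have h3 : K ^ p ≤ K ^ (p + ε) := Real.rpow_le_rpow_of_exponent_le hK (by linarith)
  have h4 : 2 * x ^ ε * y ≤ 2 * K ^ p * x ^ (p + ε) := by
    rw [e1]
    nlinarith [mul_le_mul_of_nonneg_right hy h1.le]
  have h5 : 2 * K ^ p * x ^ (p + ε) ≤ 2 * K ^ (p + ε) * x ^ (p + ε) := by
    apply mul_le_mul_of_nonneg_right _ h2.le
    linarith
  have h6 : (p - 1) * (1/2) ^ p * x ^ (p + ε) ≤ p * (1/2) ^ (p - 1) * x ^ (p + ε - 1) * x := by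
    have hhalf : 0 < ((1:ℝ)/2) ^ (p - 1) := Real.rpow_pos_of_pos (by norm_num) _
    have : p * (1/2) ^ (p - 1) * x ^ (p + ε - 1) * x = p * (1/2) ^ (p - 1) * x ^ (p + ε) := by
      rw [← e2]; ring
    rw [this, half_rpow p]
    apply mul_le_mul_of_nonneg_right _ h2.le
    nlinarith
  linarith

end Pool.Agent.V1120.Geh
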