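import Mathlib
import Pool.Agent.V1120.GehReal

/-!
# Dyadic subdivision of cubes and the main induction
-/

set_option autoImplicit false

open MeasureTheory Set Filter Topology

namespace Pool.Agent.V1120.Geh

variable {d : ℕ}

/-- half-open cube -/
def H (a : Fin d → ℝ) (ℓ : ℝ) : Set (Fin d → ℝ) := Set.pi univ (fun i => Ico (a i) (a i + ℓ))

lemma mem_H (a : Fin d → ℝ) (ℓ : ℝ) (x : Fin d → ℝ) :
    x ∈ H a ℓ ↔ ∀ i, a i ≤ x i ∧ x i < a i + ℓ := by
  simp [H]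

lemma measurableSet_H (a : Fin d → ℝ) (ℓ : ℝ) : MeasurableSet (H a ℓ) :=
  MeasurableSet.univ_pi (fun _ => measurableSet_Ico)

lemma volume_H (a : Fin d → ℝ) (ℓ : ℝ) (hℓ : 0 ≤ ℓ) : volume (H a ℓ) = ENNReal.ofReal (ℓ ^ d) := by
  unfold H
  rw [Real.volume_pi_Ico]
  simp [ENNReal.ofReal_pow hℓ]

lemma H_ae_eq (a : Fin d → ℝ) (ℓ : ℝ) : H a ℓ =ᵐ[volume] Icc a (fun i => a i + ℓ) :=
  Measure.univ_pi_Ico_ae_eq_Icc

lemma closedBall_eq (a : Fin d → ℝ) (ℓ : ℝ) (hℓ : 0 < ℓ) :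
    Metric.closedBall (fun i => a i + ℓ / 2) (ℓ / 2) = Icc a (fun i => a i + ℓ) := by
  rw [closedBall_pi _ (by positivity), ← pi_univ_Icc]
  congr 1
  ext i x
  rw [Real.closedBall_eq_Icc]
  constructor
  · rintro ⟨h1, h2⟩; exact ⟨by linarith, by linarith⟩
  · rintro ⟨h1, h2⟩; exact ⟨by linarith, by linarith⟩

/-- corner of a dyadic child -/
noncomputable def ch (a : Fin d → ℝ) (ℓ : ℝ) (τ : Fin d → Bool) : Fin d → ℝ := fun i => a i + if τ i then ℓ / 2 else 0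

lemma H_eq_iUnion (a : Fin d → ℝ) (ℓ : ℝ) (hℓ : 0 < ℓ) :
    H a ℓ = ⋃ τ, H (ch a ℓ τ) (ℓ / 2) := by
  ext x
  simp only [mem_iUnion, mem_H, ch]
  constructor
  · intro h
    refine ⟨fun i => decide (a i + ℓ / 2 ≤ x i), fun i => ?_⟩
    obtain ⟨h1, h2⟩ := h i
    by_cases hc : a i + ℓ / 2 ≤ x i
    · simp only [hc, decide_true, if_true]
      exact ⟨trivial, by linarith⟩
    · simp only [hc, decide_false]
      push Not at hc
      simp only [Bool.false_eq_true, if_false, add_zero]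
      exact ⟨h1, hc⟩
  · rintro ⟨τ, h⟩ i
    obtain ⟨h1, h2⟩ := h i
    by_cases hc : τ i
    · simp only [hc, if_true] at h1 h2
      exact ⟨by linarith, by linarith⟩
    · simp only [hc] at h1 h2
      simp only [Bool.false_eq_true, if_false, add_zero] at h1 h2
      exact ⟨by linarith, by linarith⟩

lemma H_disj (a : Fin d → ℝ) (ℓ : ℝ) :
    Pairwise (Function.onFun Disjoint (fun τ => H (ch a ℓ τ) (ℓ / 2))) := by
  intro τ σ hne
  rw [Function.onFun, Set.disjoint_left]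
  intro x hx hy
  apply hne
  funext i
  have h1 := (mem_H _ _ _).1 hx i
  have h2 := (mem_H _ _ _).1 hy i
  simp only [ch] at h1 h2
  by_cases hτ : τ i <;> by_cases hσ : σ i
  · rw [hτ, hσ]
  · simp only [hτ, hσ, if_true] at h1 h2
    simp only [Bool.false_eq_true, if_false, add_zero] at h2
    linarith [h1.1, h2.2]
  · simp only [hτ, hσ, if_true] at h1 h2
    simp only [Bool.false_eq_true, if_false, add_zero] at h1
    linarith [h1.2, h2.1]
  · simp only [Bool.not_eq_true] at hτ hσ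
    rw [hτ, hσ]

/-- average -/
noncomputable def A (f : (Fin d → ℝ) → ℝ) (a : Fin d → ℝ) (ℓ : ℝ) : ℝ := (∫ x in H a ℓ, f x) / ℓ ^ d

lemma sum_A (f : (Fin d → ℝ) → ℝ) (a : Fin d → ℝ) (ℓ : ℝ) (hℓ : 0 < ℓ) (hf : IntegrableOn f (H a ℓ)) :
    ∑ τ, A f (ch a ℓ τ) (ℓ / 2) = 2 ^ d * A f a ℓ := by
  unfold A
  have h1 : ∫ x in H a ℓ, f x = ∑ τ, ∫ x in H (ch a ℓ τ) (ℓ / 2), f x := by
    rw [H_eq_iUnion a ℓ hℓ]
    rw [integral_iUnion_fintype]
    · intro τ; exact measurableSet_H _ _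
    · exact H_disj a ℓ
    · intro τ
      apply hf.mono_set
      rw [H_eq_iUnion a ℓ hℓ]
      exact subset_iUnion (fun τ => H (ch a ℓ τ) (ℓ / 2)) τ
  rw [h1, ← Finset.sum_div, div_pow]
  field_simp

end Pool.Agent.V1120.Geh
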