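import Mathlib
import Pool.Agent.V1120.GehCube

/-!
# The main induction over dyadic generations
-/

set_option autoImplicit false

open MeasureTheory Set Filter Topology

namespace Pool.Agent.V1120.Geh

variable {d : ℕ}

lemma A_pos (w : (Fin d → ℝ) → ℝ) (hw : ∀ x, 0 < w x) (hwi : LocallyIntegrable w volume)
    (a : Fin d → ℝ) (ℓ : ℝ) (hℓ : 0 < ℓ) : 0 < A w a ℓ := by
  unfold A
  apply div_pos _ (by positivity)
  have hint : IntegrableOn w (H a ℓ) volume := by
    have h1 : IntegrableOn w (Icc a (fun i => a i + ℓ)) volume :=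
      hwi.integrableOn_isCompact isCompact_Icc
    exact h1.congr_set_ae (H_ae_eq a ℓ)
  rw [setIntegral_pos_iff_support_of_nonneg_ae]
  · have : Function.support w = univ := by
      ext x; simp [(hw x).ne']
    rw [this, univ_inter, volume_H a ℓ hℓ.le]
    simp only [ENNReal.ofReal_pos]
    positivity
  · exact Eventually.of_forall (fun x => (hw x).le)
  · exact hint

lemma integrableOn_H (w : (Fin d → ℝ) → ℝ) (hwi : LocallyIntegrable w volume)
    (a : Fin d → ℝ) (ℓ : ℝ) : IntegrableOn w (H a ℓ) volume := by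
  have h1 : IntegrableOn w (Icc a (fun i => a i + ℓ)) volume :=
    hwi.integrableOn_isCompact isCompact_Icc
  exact h1.congr_set_ae (H_ae_eq a ℓ)

/-- Jensen's inequality on a cube -/
lemma jensen (w : (Fin d → ℝ) → ℝ) (hw : ∀ x, 0 < w x) (hwi : LocallyIntegrable w volume)
    (p : ℝ) (hp : 1 < p) (a : Fin d → ℝ) (ℓ : ℝ) (hℓ : 0 < ℓ)
    (hwp : IntegrableOn (fun x => w x ^ p) (H a ℓ) volume) :
    (A w a ℓ) ^ p ≤ A (fun x => w x ^ p) a ℓ := by
  have hv : volume (H a ℓ) = ENNReal.ofReal (ℓ ^ d) := volume_H a ℓ hℓ.le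
  have hr : volume.real (H a ℓ) = ℓ ^ d := by
    rw [Measure.real, hv, ENNReal.toReal_ofReal (by positivity)]
  have h := (convexOn_rpow hp.le).map_set_average_le (μ := volume) (t := H a ℓ) (f := w)
    (Real.continuous_rpow_const (by linarith)).continuousOn isClosed_Ici
    (by rw [hv]; simp only [ne_eq, ENNReal.ofReal_eq_zero, not_le]; positivity)
    (by rw [hv]; exact ENNReal.ofReal_ne_top)
    (Eventually.of_forall (fun x => (hw x).le)) (integrableOn_H w hwi a ℓ) hwp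
  rw [setAverage_eq, setAverage_eq, hr, smul_eq_mul, smul_eq_mul] at h
  unfold A
  rw [div_eq_inv_mul, div_eq_inv_mul]
  exact h

/-- The main induction. -/
theorem key (w : (Fin d → ℝ) → ℝ) (hw : ∀ x, 0 < w x) (hwi : LocallyIntegrable w volume)
    (p ε K : ℝ) (hp : 1 < p) (hε : 0 < ε) (hε1 : ε ≤ 1) (hK : 0 ≤ K)
    (hwp : ∀ (a : Fin d → ℝ) (ℓ : ℝ), 0 < ℓ → IntegrableOn (fun x => w x ^ p) (H a ℓ) volume)
    (hRH : ∀ (a : Fin d → ℝ) (ℓ : ℝ), 0 < ℓ → A (fun x => w x ^ p) a ℓ ≤ K ^ p * (A w a ℓ) ^ p)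
    (hsmall : 2 * K ^ p * ε * ((2:ℝ) ^ d) ^ p ≤ eta p) (N : ℕ) :
    ∀ (a : Fin d → ℝ) (ℓ t : ℝ), 0 < ℓ → A w a ℓ ≤ t →
      ∃ m : (Fin d → ℝ) → ℝ, Measurable m ∧
        (∀ z ∈ H a ℓ, ∃ a', z ∈ H a' (ℓ / 2 ^ N) ∧ A w a' (ℓ / 2 ^ N) ≤ m z) ∧
        ∫⁻ z in H a ℓ, ENNReal.ofReal (w z ^ p) * ENNReal.ofReal (m z ^ ε) ≤
          ENNReal.ofReal (U p ε (A w a ℓ) (A (fun x => w x ^ p) a ℓ) t * ℓ ^ d) := by
  induction N with
  | zero =>
    intro a ℓ t hℓ ht
    have hA := A_pos w hw hwi a ℓ hℓ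
    have ht0 : 0 < t := by linarith
    refine ⟨fun _ => t, measurable_const, ?_, ?_⟩
    · intro z hz
      refine ⟨a, ?_, ?_⟩
      · simpa using hz
      · simpa using ht
    · rw [lintegral_mul_const' _ _ ENNReal.ofReal_ne_top]
      rw [← ofReal_integral_eq_lintegral_ofReal (hwp a ℓ hℓ)
        (Eventually.of_forall (fun x => Real.rpow_nonneg (hw x).le p))]
      rw [← ENNReal.ofReal_mul (integral_nonneg (fun x => Real.rpow_nonneg (hw x).le p))]
      apply ENNReal.ofReal_le_ofReal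
      have h1 := U_term p ε (A w a ℓ) (A (fun x => w x ^ p) a ℓ) t hp hA.le ht0
        (jensen w hw hwi p hp a ℓ hℓ (hwp a ℓ hℓ))
      have hpos : 0 < ℓ ^ d := by positivity
      have h2 : A (fun x => w x ^ p) a ℓ * ℓ ^ d = ∫ x in H a ℓ, w x ^ p := by
        unfold A; field_simp
      rw [← h2]
      calc A (fun x => w x ^ p) a ℓ * ℓ ^ d * t ^ ε = (A (fun x => w x ^ p) a ℓ * t ^ ε) * ℓ ^ d := by ring
        _ ≤ _ := mul_le_mul_of_nonneg_right h1 hpos.le
  | succ N ih =>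
    intro a ℓ t hℓ ht
    have hA := A_pos w hw hwi a ℓ hℓ
    have ht0 : 0 < t := by linarith
    have hℓ2 : 0 < ℓ / 2 := by positivity
    choose m hm1 hm2 hm3 using fun τ : Fin d → Bool =>
      ih (ch a ℓ τ) (ℓ / 2) (max t (A w (ch a ℓ τ) (ℓ / 2))) hℓ2 (le_max_right _ _)
    have hev : ∀ τ, ∀ z ∈ H (ch a ℓ τ) (ℓ / 2),
        ∑ σ, (H (ch a ℓ σ) (ℓ / 2)).indicator (m σ) z = m τ z := by
      intro τ z hz
      rw [Finset.sum_eq_single τ]
      · exact indicator_of_mem hz _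
      · intro σ _ hne
        apply indicator_of_notMem
        intro hz2
        exact (Set.disjoint_left.1 (H_disj a ℓ hne)) hz2 hz
      · intro h; exact absurd (Finset.mem_univ _) h
    refine ⟨fun z => ∑ σ, (H (ch a ℓ σ) (ℓ / 2)).indicator (m σ) z, ?_, ?_, ?_⟩
    · exact Finset.measurable_sum _ (fun σ _ => (hm1 σ).indicator (measurableSet_H _ _))
    · intro z hz
      rw [H_eq_iUnion a ℓ hℓ] at hz
      obtain ⟨τ, hτ⟩ := mem_iUnion.1 hz
      obtain ⟨a', h1, h2⟩ := hm2 τ z hτ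
      have e : ℓ / 2 / 2 ^ N = ℓ / 2 ^ (N + 1) := by rw [pow_succ]; field_simp
      rw [e] at h1 h2
      refine ⟨a', h1, ?_⟩
      show _ ≤ ∑ σ, (H (ch a ℓ σ) (ℓ / 2)).indicator (m σ) z
      rw [hev τ z hτ]
      exact h2
    · have h1 : ∫⁻ z in H a ℓ, ENNReal.ofReal (w z ^ p) *
          ENNReal.ofReal ((∑ σ, (H (ch a ℓ σ) (ℓ / 2)).indicator (m σ) z) ^ ε) =
          ∑ τ, ∫⁻ z in H (ch a ℓ τ) (ℓ / 2), ENNReal.ofReal (w z ^ p) * ENNReal.ofReal (m τ z ^ ε) := by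
        conv_lhs => rw [H_eq_iUnion a ℓ hℓ]
        rw [lintegral_iUnion (fun τ => measurableSet_H _ _) (H_disj a ℓ), tsum_fintype]
        apply Finset.sum_congr rfl
        intro τ _
        apply setLIntegral_congr_fun (measurableSet_H _ _)
        intro z hz
        simp only
        rw [hev τ z hz]
      rw [h1]
      have hx : ∀ τ, A w (ch a ℓ τ) (ℓ / 2) ≤ (2:ℝ) ^ d * t := by
        intro τ
        have h2 := sum_A w a ℓ hℓ (integrableOn_H w hwi a ℓ)
        have h3 : A w (ch a ℓ τ) (ℓ / 2) ≤ ∑ σ, A w (ch a ℓ σ) (ℓ / 2) :=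
          Finset.single_le_sum (f := fun σ => A w (ch a ℓ σ) (ℓ / 2))
            (fun σ _ => (A_pos w hw hwi _ _ hℓ2).le) (Finset.mem_univ τ)
        rw [h2] at h3
        exact h3.trans (mul_le_mul_of_nonneg_left ht (by positivity))
      have hstep : ∀ τ, U p ε (A w (ch a ℓ τ) (ℓ / 2)) (A (fun x => w x ^ p) (ch a ℓ τ) (ℓ / 2))
          (max t (A w (ch a ℓ τ) (ℓ / 2))) ≤
          2 * t ^ ε * A (fun x => w x ^ p) (ch a ℓ τ) (ℓ / 2) + (p - 1) * (1/2) ^ p * t ^ (p + ε)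
            - p * (1/2) ^ (p - 1) * t ^ (p + ε - 1) * A w (ch a ℓ τ) (ℓ / 2) := fun τ =>
        U_step p ε _ _ t K (2 ^ d) hp hε hε1 ht0 (hx τ) hK (hRH _ _ hℓ2) hsmall
      have hnn : ∀ τ, 0 ≤ U p ε (A w (ch a ℓ τ) (ℓ / 2)) (A (fun x => w x ^ p) (ch a ℓ τ) (ℓ / 2))
          (max t (A w (ch a ℓ τ) (ℓ / 2))) := by
        intro τ
        have h4 : 0 < max t (A w (ch a ℓ τ) (ℓ / 2)) := lt_max_of_lt_left ht0
        have h5 := U_term p ε (A w (ch a ℓ τ) (ℓ / 2)) (A (fun x => w x ^ p) (ch a ℓ τ) (ℓ / 2))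
          (max t (A w (ch a ℓ τ) (ℓ / 2))) hp (A_pos w hw hwi _ _ hℓ2).le h4
          (jensen w hw hwi p hp _ _ hℓ2 (hwp _ _ hℓ2))
        refine le_trans ?_ h5
        apply mul_nonneg _ (Real.rpow_nonneg h4.le _)
        unfold A
        apply div_nonneg (integral_nonneg (fun x => Real.rpow_nonneg (hw x).le p)) (by positivity)
      calc ∑ τ, ∫⁻ z in H (ch a ℓ τ) (ℓ / 2), ENNReal.ofReal (w z ^ p) * ENNReal.ofReal (m τ z ^ ε)
          ≤ ∑ τ, ENNReal.ofReal (U p ε (A w (ch a ℓ τ) (ℓ / 2)) (A (fun x => w x ^ p) (ch a ℓ τ) (ℓ / 2))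
              (max t (A w (ch a ℓ τ) (ℓ / 2))) * (ℓ / 2) ^ d) := Finset.sum_le_sum (fun τ _ => hm3 τ)
        _ = ENNReal.ofReal (∑ τ, U p ε (A w (ch a ℓ τ) (ℓ / 2)) (A (fun x => w x ^ p) (ch a ℓ τ) (ℓ / 2))
              (max t (A w (ch a ℓ τ) (ℓ / 2))) * (ℓ / 2) ^ d) := by
            rw [ENNReal.ofReal_sum_of_nonneg]
            intro τ _
            exact mul_nonneg (hnn τ) (by positivity)
        _ ≤ _ := by
            apply ENNReal.ofReal_le_ofReal
            rw [← Finset.sum_mul]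
            have hs : ∑ τ, U p ε (A w (ch a ℓ τ) (ℓ / 2)) (A (fun x => w x ^ p) (ch a ℓ τ) (ℓ / 2))
                (max t (A w (ch a ℓ τ) (ℓ / 2))) ≤
                2 ^ d * U p ε (A w a ℓ) (A (fun x => w x ^ p) a ℓ) t := by
              refine (Finset.sum_le_sum (fun τ _ => hstep τ)).trans (le_of_eq ?_)
              rw [Finset.sum_sub_distrib, Finset.sum_add_distrib, Finset.sum_const, ← Finset.mul_sum,
                ← Finset.mul_sum, sum_A w a ℓ hℓ (integrableOn_H w hwi a ℓ), sum_A _ a ℓ hℓ (hwp a ℓ hℓ),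
                Finset.card_univ]
              simp only [Fintype.card_pi, Fintype.card_bool, Finset.prod_const, Finset.card_univ,
                Fintype.card_fin, nsmul_eq_mul, Nat.cast_pow, Nat.cast_ofNat]
              unfold U
              ring
            have hpos : (0:ℝ) < (ℓ / 2) ^ d := by positivity
            calc _ ≤ (2 ^ d * U p ε (A w a ℓ) (A (fun x => w x ^ p) a ℓ) t) * (ℓ / 2) ^ d :=
                  mul_le_mul_of_nonneg_right hs hpos.le
              _ = _ := by rw [div_pow]; field_simp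

end Pool.Agent.V1120.Geh
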