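import Mathlib
import Pool.Agent.V1120.GehMain

/-!
# Passage to the limit (Lebesgue differentiation and Fatou)
-/

set_option autoImplicit false

open MeasureTheory Set Filter Topology

namespace Pool.Agent.V1120.Geh

variable {d : ℕ}

lemma A_eq_average (w : (Fin d → ℝ) → ℝ) (a : Fin d → ℝ) (ℓ : ℝ) (hℓ : 0 < ℓ) :
    A w a ℓ = ⨍ y in Metric.closedBall (fun i => a i + ℓ / 2) (ℓ / 2), w y := by
  rw [setAverage_eq, closedBall_eq a ℓ hℓ]
  have h1 : volume.real (Icc a (fun i => a i + ℓ)) = ℓ ^ d := by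
    rw [Measure.real, ← measure_congr (H_ae_eq a ℓ), volume_H a ℓ hℓ.le,
      ENNReal.toReal_ofReal (by positivity)]
  rw [h1, ← setIntegral_congr_set (H_ae_eq a ℓ), smul_eq_mul]
  unfold A
  rw [div_eq_inv_mul]

lemma mem_closedBall_of_mem_H (a : Fin d → ℝ) (ℓ : ℝ) (hℓ : 0 < ℓ) (z : Fin d → ℝ) (hz : z ∈ H a ℓ) :
    z ∈ Metric.closedBall (fun i => a i + ℓ / 2) (ℓ / 2) := by
  rw [closedBall_eq a ℓ hℓ]
  have h := (mem_H a ℓ z).1 hz
  exact ⟨fun i => (h i).1, fun i => (h i).2.le⟩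

theorem limit_bound (w : (Fin d → ℝ) → ℝ) (hw : ∀ x, 0 < w x) (hwi : LocallyIntegrable w volume)
    (p ε K : ℝ) (hp : 1 < p) (hε : 0 < ε) (hε1 : ε ≤ 1) (hK : 0 ≤ K)
    (hwp : ∀ (a : Fin d → ℝ) (ℓ : ℝ), 0 < ℓ → IntegrableOn (fun x => w x ^ p) (H a ℓ) volume)
    (hRH : ∀ (a : Fin d → ℝ) (ℓ : ℝ), 0 < ℓ → A (fun x => w x ^ p) a ℓ ≤ K ^ p * (A w a ℓ) ^ p)
    (hsmall : 2 * K ^ p * ε * ((2:ℝ) ^ d) ^ p ≤ eta p) (a : Fin d → ℝ) (ℓ : ℝ) (hℓ : 0 < ℓ) :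
    ∫⁻ z in H a ℓ, ENNReal.ofReal (w z ^ (p + ε)) ≤
      ENNReal.ofReal (U p ε (A w a ℓ) (A (fun x => w x ^ p) a ℓ) (A w a ℓ) * ℓ ^ d) := by
  choose m hm1 hm2 hm3 using fun N =>
    key w hw hwi p ε K hp hε hε1 hK hwp hRH hsmall N a ℓ (A w a ℓ) hℓ le_rfl
  have hdiff := IsUnifLocDoublingMeasure.ae_tendsto_average (μ := (volume : Measure (Fin d → ℝ))) hwi 1
  have hpt : ∀ᵐ z ∂(volume.restrict (H a ℓ)), ENNReal.ofReal (w z ^ (p + ε)) ≤
      liminf (fun N => ENNReal.ofReal (w z ^ p) * ENNReal.ofReal (m N z ^ ε)) atTop := by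
    rw [ae_restrict_iff' (measurableSet_H a ℓ)]
    filter_upwards [hdiff] with z hz hzH
    choose a' ha1 ha2 using fun N => hm2 N z hzH
    have hpos : ∀ N : ℕ, 0 < ℓ / 2 ^ N := fun N => by positivity
    have hlim0 : Tendsto (fun N : ℕ => ℓ / 2 ^ N / 2) atTop (𝓝 0) := by
      have h1 : Tendsto (fun N : ℕ => (ℓ / 2) * (1 / 2 : ℝ) ^ N) atTop (𝓝 ((ℓ / 2) * 0)) :=
        (tendsto_pow_atTop_nhds_zero_of_lt_one (by norm_num) (by norm_num)).const_mul _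
      rw [mul_zero] at h1
      refine h1.congr (fun N => ?_)
      rw [one_div, inv_pow]; field_simp
    have hlim1 : Tendsto (fun N : ℕ => ℓ / 2 ^ N / 2) atTop (𝓝[>] 0) := by
      rw [tendsto_nhdsWithin_iff]
      exact ⟨hlim0, Eventually.of_forall (fun N => by have := hpos N; simp only [mem_Ioi]; positivity)⟩
    have h2 := hz (l := atTop) (fun N : ℕ => fun i => a' N i + ℓ / 2 ^ N / 2) (fun N : ℕ => ℓ / 2 ^ N / 2) hlim1
      (Eventually.of_forall (fun N => by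
        rw [one_mul]
        exact mem_closedBall_of_mem_H (a' N) (ℓ / 2 ^ N) (hpos N) z (ha1 N)))
    have h3 : Tendsto (fun N : ℕ => A w (a' N) (ℓ / 2 ^ N)) atTop (𝓝 (w z)) :=
      h2.congr (fun N => (A_eq_average w (a' N) (ℓ / 2 ^ N) (hpos N)).symm)
    have h4 : Tendsto (fun N : ℕ => ENNReal.ofReal (w z ^ p) * ENNReal.ofReal (A w (a' N) (ℓ / 2 ^ N) ^ ε))
        atTop (𝓝 (ENNReal.ofReal (w z ^ p) * ENNReal.ofReal (w z ^ ε))) := by
      apply ENNReal.Tendsto.const_mul _ (Or.inr ENNReal.ofReal_ne_top)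
      apply ENNReal.tendsto_ofReal
      exact h3.rpow_const (Or.inl (hw z).ne')
    have h5 : ENNReal.ofReal (w z ^ (p + ε)) = ENNReal.ofReal (w z ^ p) * ENNReal.ofReal (w z ^ ε) := by
      rw [← ENNReal.ofReal_mul (Real.rpow_nonneg (hw z).le p), Real.rpow_add (hw z)]
    rw [h5, ← h4.liminf_eq]
    refine liminf_le_liminf (Eventually.of_forall fun N => ?_)
    refine mul_le_mul' le_rfl ?_
    apply ENNReal.ofReal_le_ofReal
    exact Real.rpow_le_rpow (A_pos w hw hwi _ _ (hpos N)).le (ha2 N) hε.le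
  have hmeas : ∀ N, AEMeasurable (fun z => ENNReal.ofReal (w z ^ p) * ENNReal.ofReal (m N z ^ ε))
      (volume.restrict (H a ℓ)) := by
    intro N
    have h1 : AEMeasurable w (volume.restrict (H a ℓ)) :=
      (integrableOn_H w hwi a ℓ).aestronglyMeasurable.aemeasurable
    exact (h1.pow_const p).ennreal_ofReal.mul ((hm1 N).pow_const ε).ennreal_ofReal.aemeasurable
  calc ∫⁻ z in H a ℓ, ENNReal.ofReal (w z ^ (p + ε))
      ≤ ∫⁻ z in H a ℓ, liminf (fun N => ENNReal.ofReal (w z ^ p) * ENNReal.ofReal (m N z ^ ε)) atTop :=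
        lintegral_mono_ae hpt
    _ ≤ liminf (fun N => ∫⁻ z in H a ℓ, ENNReal.ofReal (w z ^ p) * ENNReal.ofReal (m N z ^ ε)) atTop :=
        lintegral_liminf_le' hmeas
    _ ≤ liminf (fun _ : ℕ =>
          ENNReal.ofReal (U p ε (A w a ℓ) (A (fun x => w x ^ p) a ℓ) (A w a ℓ) * ℓ ^ d)) atTop :=
        liminf_le_liminf (Eventually.of_forall hm3)
    _ = _ := liminf_const _

end Pool.Agent.V1120.Geh
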