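import Mathlib

set_option autoImplicit false

namespace Pool.Agent.V1120.Etale

open Matrix MatrixGroups

/-- the word `[y, z] * [y, z ^ 2]` -/
def wd {H : Type*} [Group H] (y z : H) : H :=
  y⁻¹ * z⁻¹ * y * z * (y⁻¹ * (z⁻¹ * z⁻¹) * y * (z * z))

theorem map_wd {H K : Type*} [Group H] [Group K] (f : H →* K) (y z : H) :
    f (wd y z) = wd (f y) (f z) := by
  simp [wd]

def adj {R : Type*} [CommRing R] (m : Matrix (Fin 2) (Fin 2) R) : Matrix (Fin 2) (Fin 2) R :=
  !![m 1 1, -m 0 1; -m 1 0, m 0 0]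

def Pw {R : Type*} [Ring R] (a ai b bi : R) : R := ai * bi * a * b
def Qw {R : Type*} [Ring R] (a ai b bi : R) : R := ai * (bi * bi) * a * (b * b)
def DPw {R : Type*} [Ring R] (a ai b bi y yi : R) : R := (ai * yi * a) * b + (ai * bi * a) * y
def DQw {R : Type*} [Ring R] (a ai b bi y yi : R) : R :=
  (ai * (yi * bi + bi * yi) * a) * (b * b) + (ai * (bi * bi) * a) * (y * b + b * y)
def DW {R : Type*} [Ring R] (a ai b bi y yi : R) : R :=
  DPw a ai b bi y yi * Qw a ai b bi + Pw a ai b bi * DQw a ai b bi y yi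

theorem chk0 (p q r s : ZMod 5)
    (h1 : 1 * s + 1 * p - 0 * r - 2 * q = 0)
    (h2 : DW (!![1, 1; 0, 1] : Matrix (Fin 2) (Fin 2) (ZMod 5)) (adj !![1, 1; 0, 1]) !![1, 0; 2, 1] (adj !![1, 0; 2, 1])
      !![p, q; r, s] (adj !![p, q; r, s]) = 0) :
    p = 0 ∧ q = 0 ∧ r = 0 ∧ s = 0 := by
  have h00 := congrFun (congrFun h2 0) 0
  have h01 := congrFun (congrFun h2 0) 1
  have h10 := congrFun (congrFun h2 1) 0
  have h11 := congrFun (congrFun h2 1) 1
  clear h2
  simp [DW, DPw, DQw, Pw, Qw, adj] at h00 h01 h10 h11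
  ring_nf at h00 h01 h10 h11
  reduce_mod_char at h00 h01 h10 h11
  revert p q r s
  decide +kernel


theorem chk1 (p q r s : ZMod 5)
    (h1 : 1 * s + 1 * p - 1 * r - 0 * q = 0)
    (h2 : DW (!![0, 2; 2, 2] : Matrix (Fin 2) (Fin 2) (ZMod 5)) (adj !![0, 2; 2, 2]) !![1, 1; 0, 1] (adj !![1, 1; 0, 1])
      !![p, q; r, s] (adj !![p, q; r, s]) = 0) :
    p = 0 ∧ q = 0 ∧ r = 0 ∧ s = 0 := by
  have h00 := congrFun (congrFun h2 0) 0
  have h01 := congrFun (congrFun h2 0) 1
  have h10 := congrFun (congrFun h2 1) 0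
  have h11 := congrFun (congrFun h2 1) 1
  clear h2
  simp [DW, DPw, DQw, Pw, Qw, adj] at h00 h01 h10 h11
  ring_nf at h00 h01 h10 h11
  reduce_mod_char at h00 h01 h10 h11
  revert p q r s
  decide +kernel


theorem chk2 (p q r s : ZMod 5)
    (h1 : 0 * s + 2 * p - 2 * r - 2 * q = 0)
    (h2 : DW (!![0, 1; 4, 2] : Matrix (Fin 2) (Fin 2) (ZMod 5)) (adj !![0, 1; 4, 2]) !![0, 2; 2, 2] (adj !![0, 2; 2, 2])
      !![p, q; r, s] (adj !![p, q; r, s]) = 0) :
    p = 0 ∧ q = 0 ∧ r = 0 ∧ s = 0 := by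
  have h00 := congrFun (congrFun h2 0) 0
  have h01 := congrFun (congrFun h2 0) 1
  have h10 := congrFun (congrFun h2 1) 0
  have h11 := congrFun (congrFun h2 1) 1
  clear h2
  simp [DW, DPw, DQw, Pw, Qw, adj] at h00 h01 h10 h11
  ring_nf at h00 h01 h10 h11
  reduce_mod_char at h00 h01 h10 h11
  revert p q r s
  decide +kernel


theorem chk3 (p q r s : ZMod 5)
    (h1 : 0 * s + 2 * p - 1 * r - 4 * q = 0)
    (h2 : DW (!![1, 0; 2, 1] : Matrix (Fin 2) (Fin 2) (ZMod 5)) (adj !![1, 0; 2, 1]) !![0, 1; 4, 2] (adj !![0, 1; 4, 2])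
      !![p, q; r, s] (adj !![p, q; r, s]) = 0) :
    p = 0 ∧ q = 0 ∧ r = 0 ∧ s = 0 := by
  have h00 := congrFun (congrFun h2 0) 0
  have h01 := congrFun (congrFun h2 0) 1
  have h10 := congrFun (congrFun h2 1) 0
  have h11 := congrFun (congrFun h2 1) 1
  clear h2
  simp [DW, DPw, DQw, Pw, Qw, adj] at h00 h01 h10 h11
  ring_nf at h00 h01 h10 h11
  reduce_mod_char at h00 h01 h10 h11
  revert p q r s
  decide +kernel

theorem map_DW {R S : Type*} [Ring R] [Ring S] (f : R →+* S) (a ai b bi y yi : R) :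
    f (DW a ai b bi y yi) = DW (f a) (f ai) (f b) (f bi) (f y) (f yi) := by
  simp [DW, DPw, DQw, Pw, Qw]

section dual
variable {R : Type*} [CommRing R] {e : R}

theorem mul_dual (he : e * e = 0) (X X1 Y Y1 : Matrix (Fin 2) (Fin 2) R) :
    (X + e • X1) * (Y + e • Y1) = X * Y + e • (X1 * Y + X * Y1) := by
  rw [add_mul, mul_add, mul_add, smul_mul_assoc, mul_smul_comm, smul_mul_assoc, mul_smul_comm,
    smul_smul, he, zero_smul, smul_add]
  abel

theorem mul_dual_left (X Y Y1 : Matrix (Fin 2) (Fin 2) R) :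
    X * (Y + e • Y1) = X * Y + e • (X * Y1) := by
  rw [mul_add, mul_smul_comm]

theorem mul_dual_right (X X1 Y : Matrix (Fin 2) (Fin 2) R) :
    (X + e • X1) * Y = X * Y + e • (X1 * Y) := by
  rw [add_mul, smul_mul_assoc]

theorem W_dual (he : e * e = 0) (a ai b bi y yi : Matrix (Fin 2) (Fin 2) R) :
    Pw a ai (b + e • y) (bi + e • yi) * Qw a ai (b + e • y) (bi + e • yi) =
      Pw a ai b bi * Qw a ai b bi + e • DW a ai b bi y yi := by
  have h1 : Pw a ai (b + e • y) (bi + e • yi) = Pw a ai b bi + e • DPw a ai b bi y yi := by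
    unfold Pw DPw
    rw [mul_dual_left ai bi yi, mul_dual_right (ai * bi) (ai * yi) a, mul_dual he]
  have h2 : Qw a ai (b + e • y) (bi + e • yi) = Qw a ai b bi + e • DQw a ai b bi y yi := by
    unfold Qw DQw
    rw [mul_dual he bi yi bi yi, mul_dual he b y b y, mul_dual_left ai (bi * bi) (yi * bi + bi * yi),
      mul_dual_right (ai * (bi * bi)) (ai * (yi * bi + bi * yi)) a, mul_dual he]
  rw [h1, h2, mul_dual he]
  rfl

theorem adj_dual (b y : Matrix (Fin 2) (Fin 2) R) : adj (b + e • y) = adj b + e • adj y := by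
  ext i j
  fin_cases i <;> fin_cases j <;> simp [adj] <;> ring

end dual

theorem adj_eq {R : Type*} [CommRing R] (m : Matrix (Fin 2) (Fin 2) R) :
    adjugate m = adj m := by
  rw [Matrix.adjugate_fin_two]; rfl

theorem coe_wd {R : Type*} [CommRing R] (A B : SL(2, R)) :
    ((wd A B : SL(2, R)) : Matrix (Fin 2) (Fin 2) R) =
      Pw (A : Matrix (Fin 2) (Fin 2) R) (adj A) B (adj B) *
        Qw (A : Matrix (Fin 2) (Fin 2) R) (adj A) B (adj B) := by
  simp only [wd, Matrix.SpecialLinearGroup.coe_mul, Matrix.SpecialLinearGroup.coe_inv, adj_eq,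
    Pw, Qw]

abbrev R5 (n : ℕ) := ZMod (5 ^ (n + 1))

def toF (n : ℕ) : R5 n →+* ZMod 5 := ZMod.castHom (dvd_pow_self 5 n.succ_ne_zero) (ZMod 5)

def down (n : ℕ) : R5 (n + 1) →+* R5 n :=
  ZMod.castHom (pow_dvd_pow 5 (Nat.le_succ (n + 1))) (R5 n)

theorem toF_down (n : ℕ) : (toF n).comp (down n) = toF (n + 1) := Subsingleton.elim _ _

instance (n : ℕ) : NeZero (5 ^ (n + 1)) := ⟨by positivity⟩

theorem down_ker (n : ℕ) (x : R5 (n + 1)) (h : down n x = 0) :
    ∃ y, x = (5 : R5 (n + 1)) ^ (n + 1) * y := by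
  obtain ⟨m, rfl⟩ := ZMod.natCast_zmod_surjective x
  rw [map_natCast, ZMod.natCast_eq_zero_iff] at h
  obtain ⟨k, rfl⟩ := h
  exact ⟨k, by push_cast; ring⟩

theorem toF_eq_zero (n : ℕ) (y : R5 (n + 1)) :
    (5 : R5 (n + 1)) ^ (n + 1) * y = 0 ↔ toF (n + 1) y = 0 := by
  obtain ⟨m, rfl⟩ := ZMod.natCast_zmod_surjective y
  rw [map_natCast, ZMod.natCast_eq_zero_iff]
  have h1 : (5 : R5 (n + 1)) ^ (n + 1) * (m : R5 (n + 1)) = ((5 ^ (n + 1) * m : ℕ) : R5 (n + 1)) := by
    push_cast; ring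
  rw [h1, ZMod.natCast_eq_zero_iff]
  rw [pow_succ 5 (n + 1)]
  exact Nat.mul_dvd_mul_iff_left (by positivity)

theorem sq_zero (n : ℕ) : (5 : R5 (n + 1)) ^ (n + 1) * (5 : R5 (n + 1)) ^ (n + 1) = 0 := by
  have h1 : (5 : R5 (n + 1)) ^ (n + 1) * (5 : R5 (n + 1)) ^ (n + 1) =
      ((5 ^ (n + 1 + 1) * 5 ^ n : ℕ) : R5 (n + 1)) := by
    push_cast; ring
  rw [h1, ZMod.natCast_eq_zero_iff]
  exact Dvd.intro _ rfl

/-- reduction to `ZMod 5` -/
def red (n : ℕ) : SL(2, R5 n) →* SL(2, ZMod 5) := Matrix.SpecialLinearGroup.map (toF n)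

def dn (n : ℕ) : SL(2, R5 (n + 1)) →* SL(2, R5 n) := Matrix.SpecialLinearGroup.map (down n)

theorem red_dn (n : ℕ) (A : SL(2, R5 (n + 1))) : red n (dn n A) = red (n + 1) A := by
  ext i j
  show toF n (down n (A i j)) = toF (n + 1) (A i j)
  rw [← toF_down]; rfl

def s : Fin 4 → SL(2, ZMod 5) :=
  ![⟨!![1, 0; 2, 1], by decide⟩, ⟨!![1, 1; 0, 1], by decide⟩, ⟨!![0, 2; 2, 2], by decide⟩,
    ⟨!![0, 1; 4, 2], by decide⟩]

theorem s_inj : Function.Injective s := by decide +kernel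

theorem wd_s (i : Fin 4) : wd (s (i + 1)) (s i) = s (i + 2) := by
  revert i; decide +kernel

theorem chk (i : Fin 4) (Y : Matrix (Fin 2) (Fin 2) (ZMod 5))
    (h1 : (s i) 0 0 * Y 1 1 + (s i) 1 1 * Y 0 0 - (s i) 0 1 * Y 1 0 - (s i) 1 0 * Y 0 1 = 0)
    (h2 : DW (s (i + 1) : Matrix (Fin 2) (Fin 2) (ZMod 5)) (adj (s (i + 1)))
      (s i) (adj (s i)) Y (adj Y) = 0) : Y = 0 := by
  have hY : Y = !![Y 0 0, Y 0 1; Y 1 0, Y 1 1] := Matrix.eta_fin_two Y
  have fin : Y 0 0 = 0 ∧ Y 0 1 = 0 ∧ Y 1 0 = 0 ∧ Y 1 1 = 0 := by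
    generalize Y 0 0 = p at *
    generalize Y 0 1 = q at *
    generalize Y 1 0 = r at *
    generalize Y 1 1 = t at *
    subst hY
    fin_cases i
    · exact chk0 p q r t h1 h2
    · exact chk1 p q r t h1 h2
    · exact chk2 p q r t h1 h2
    · exact chk3 p q r t h1 h2
  rw [hY, fin.1, fin.2.1, fin.2.2.1, fin.2.2.2]
  ext i j; fin_cases i <;> fin_cases j <;> rfl

theorem key (n : ℕ) : ∀ (A B B' : SL(2, R5 n)) (i : Fin 4), red n A = s (i + 1) →
    red n B = s i → red n B' = s i → wd A B = wd A B' → B = B' := by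
  induction n with
  | zero =>
    intro A B B' i _ hB hB' _
    have hinj : Function.Injective (toF 0) := by
      intro x y hxy
      obtain ⟨a, rfl⟩ := ZMod.natCast_zmod_surjective x
      obtain ⟨b, rfl⟩ := ZMod.natCast_zmod_surjective y
      rw [map_natCast, map_natCast] at hxy
      exact hxy
    ext k l
    apply hinj
    exact congrArg (fun M : SL(2, ZMod 5) => M k l) (hB.trans hB'.symm)
  | succ n ih =>
    intro A B B' i hA hB hB' hw
    have h1 : dn n B = dn n B' := by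
      apply ih (dn n A) (dn n B) (dn n B') i
      · rw [red_dn]; exact hA
      · rw [red_dn]; exact hB
      · rw [red_dn]; exact hB'
      · rw [← map_wd, ← map_wd, hw]
    have h2 : ∀ k l, ∃ y, B' k l = B k l + (5 : R5 (n + 1)) ^ (n + 1) * y := by
      intro k l
      obtain ⟨y, hy⟩ := down_ker n (B' k l - B k l) (by
        rw [map_sub, sub_eq_zero]
        exact congrArg (fun M : SL(2, R5 n) => M k l) h1.symm)
      exact ⟨y, by rw [← hy]; ring⟩
    choose y hy using h2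
    set e : R5 (n + 1) := (5 : R5 (n + 1)) ^ (n + 1) with he
    have he2 : e * e = 0 := sq_zero n
    let Y : Matrix (Fin 2) (Fin 2) (R5 (n + 1)) := y
    have hBY : (B' : Matrix (Fin 2) (Fin 2) (R5 (n + 1))) = B + e • Y := by
      ext k l
      exact hy k l
    -- determinant condition
    have hdet : e * (B 0 0 * Y 1 1 + B 1 1 * Y 0 0 - B 0 1 * Y 1 0 - B 1 0 * Y 0 1) = 0 := by
      have d1 := B.det_coe
      have d2 := B'.det_coe
      rw [hBY] at d2
      rw [Matrix.det_fin_two] at d1 d2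
      simp only [Matrix.add_apply, Matrix.smul_apply, smul_eq_mul] at d2
      linear_combination d2 - d1 - (Y 0 0 * Y 1 1 - Y 0 1 * Y 1 0) * he2
    have hdw : e • DW (A : Matrix (Fin 2) (Fin 2) (R5 (n + 1))) (adj A) B (adj B) Y (adj Y) = 0 := by
      have c := congrArg (fun M : SL(2, R5 (n + 1)) => (M : Matrix (Fin 2) (Fin 2) (R5 (n + 1)))) hw
      simp only [coe_wd] at c
      rw [hBY, adj_dual, W_dual he2] at c
      exact (add_eq_left.mp c.symm)
    have hY0 : (toF (n + 1)).mapMatrix Y = 0 := by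
      apply chk i
      · have := (toF_eq_zero n _).mp hdet
        simp only [map_add, map_sub, map_mul] at this
        have hb : ∀ k l, toF (n + 1) (B k l) = s i k l := by
          intro k l
          exact congrArg (fun M : SL(2, ZMod 5) => M k l) hB
        rw [hb, hb, hb, hb] at this
        exact this
      · have hm : (toF (n + 1)).mapMatrix
            (DW (A : Matrix (Fin 2) (Fin 2) (R5 (n + 1))) (adj A) B (adj B) Y (adj Y)) = 0 := by
          ext k l
          have := congrFun (congrFun hdw k) l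
          exact (toF_eq_zero n _).mp this
        rw [map_DW] at hm
        have ha : (toF (n + 1)).mapMatrix (A : Matrix (Fin 2) (Fin 2) (R5 (n + 1))) = s (i + 1) :=
          congrArg (fun M : SL(2, ZMod 5) => (M : Matrix (Fin 2) (Fin 2) (ZMod 5))) hA
        have hb : (toF (n + 1)).mapMatrix (B : Matrix (Fin 2) (Fin 2) (R5 (n + 1))) = s i :=
          congrArg (fun M : SL(2, ZMod 5) => (M : Matrix (Fin 2) (Fin 2) (ZMod 5))) hB
        have hadj : ∀ M : Matrix (Fin 2) (Fin 2) (R5 (n + 1)),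
            (toF (n + 1)).mapMatrix (adj M) = adj ((toF (n + 1)).mapMatrix M) := by
          intro M
          ext k l; fin_cases k <;> fin_cases l <;> simp [adj]
        rw [hadj, hadj, hadj, ha, hb] at hm
        exact hm
    apply Subtype.ext
    rw [hBY]
    symm
    rw [add_eq_left]
    ext k l
    have := congrFun (congrFun hY0 k) l
    exact (toF_eq_zero n _).mpr this

end Pool.Agent.V1120.Etale
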