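import Pool.Agent.V1120.Sanov
import Pool.Agent.V1120.Etale

set_option autoImplicit false

namespace Pool.Agent.V1120.OneRel

open Pool.Agent.V1120.Etale Pool.Agent.V1120.Sanov Matrix MatrixGroups

/-- the finite set of pairs on which the pair map is bijective -/
def D (n : ℕ) : Type :=
  {p : SL(2, R5 n) × SL(2, R5 n) // ∃ i : Fin 4, red n p.1 = s (i + 1) ∧ red n p.2 = s i}

instance (n : ℕ) : Finite (SL(2, R5 n)) := by
  classical
  exact Subtype.finite

instance (n : ℕ) : Finite (D n) := Subtype.finite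

def Phi (n : ℕ) (p : D n) : D n :=
  ⟨(wd p.1.1 p.1.2, p.1.1), by
    obtain ⟨i, h1, h2⟩ := p.2
    refine ⟨i + 1, ?_, h1⟩
    show red n (wd p.1.1 p.1.2) = _
    rw [map_wd, h1, h2, wd_s, add_assoc]
    rfl⟩

theorem Phi_inj (n : ℕ) : Function.Injective (Phi n) := by
  intro p q h
  have h1 : wd p.1.1 p.1.2 = wd q.1.1 q.1.2 := congrArg (fun x : D n => x.1.1) h
  have h2 : p.1.1 = q.1.1 := congrArg (fun x : D n => x.1.2) h
  obtain ⟨i, hi1, hi2⟩ := p.2
  obtain ⟨j, hj1, hj2⟩ := q.2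
  have hij : i = j := by
    have : s (i + 1) = s (j + 1) := by rw [← hi1, ← hj1, h2]
    exact add_right_cancel (s_inj this)
  subst hij
  rw [← h2] at h1
  have h3 := key n p.1.1 p.1.2 q.1.2 i hi1 hi2 hj2 h1
  exact Subtype.ext (Prod.ext h2 h3)

noncomputable def PhiE (n : ℕ) : D n ≃ D n :=
  Equiv.ofBijective (Phi n) (Finite.injective_iff_bijective.mp (Phi_inj n))

theorem Phi_PhiE_symm (n : ℕ) (d : D n) : Phi n ((PhiE n).symm d) = d :=
  (PhiE n).apply_symm_apply d

/-- fibrewise left multiplication -/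
def M {X H : Type*} [Group H] : (X → H) →* Equiv.Perm (X × H) where
  toFun c :=
    { toFun := fun p => (p.1, c p.1 * p.2)
      invFun := fun p => (p.1, (c p.1)⁻¹ * p.2)
      left_inv := fun p => by simp
      right_inv := fun p => by simp }
  map_one' := by ext p <;> simp
  map_mul' c c' := by ext p <;> simp [mul_assoc]

theorem M_apply {X H : Type*} [Group H] (c : X → H) (p : X × H) : M c p = (p.1, c p.1 * p.2) := rfl

/-- the permutation given by the stable letter -/
def T {X : Type*} (H : Type*) (e : X ≃ X) : Equiv.Perm (X × H) where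
  toFun p := (e.symm p.1, p.2)
  invFun p := (e p.1, p.2)
  left_inv p := by simp
  right_inv p := by simp

theorem T_conj {X H : Type*} [Group H] (e : X ≃ X) (c : X → H) :
    (T H e)⁻¹ * M c * T H e = M (fun x => c (e.symm x)) := by
  ext p
  · show (e (e.symm p.1)) = _
    simp [M_apply]
  · rfl

/-- the letters -/
def y : FreeGroup (Fin 2) := (FreeGroup.of 1)⁻¹ * FreeGroup.of 0 * FreeGroup.of 1
def z : FreeGroup (Fin 2) := (FreeGroup.of 1)⁻¹ * y * FreeGroup.of 1
def r : FreeGroup (Fin 2) := (FreeGroup.of 0)⁻¹ * wd y z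

abbrev G := PresentedGroup ({r} : Set (FreeGroup (Fin 2)))

def ga : G := PresentedGroup.of 0
def gt : G := PresentedGroup.of 1
def gy : G := gt⁻¹ * ga * gt
def gz : G := gt⁻¹ * gy * gt

theorem rel : ga = wd gy gz := by
  have h1 : (PresentedGroup.mk ({r} : Set (FreeGroup (Fin 2)))) r = 1 :=
    PresentedGroup.one_of_mem (Set.mem_singleton r)
  have h2 : (PresentedGroup.mk ({r} : Set (FreeGroup (Fin 2)))) r = ga⁻¹ * wd gy gz := by
    unfold r
    rw [map_mul, map_inv, map_wd]
    rfl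
  rw [h2] at h1
  exact inv_mul_eq_one.mp h1

theorem hrel {K : Type*} [Group K] (A B : K)
    (h : A = wd (B⁻¹ * A * B) (B⁻¹ * (B⁻¹ * A * B) * B)) :
    ∀ x ∈ ({r} : Set (FreeGroup (Fin 2))), FreeGroup.lift ![A, B] x = 1 := by
  intro x hx
  rw [Set.mem_singleton_iff] at hx
  subst hx
  unfold r
  rw [map_mul, map_inv, map_wd]
  have hy : FreeGroup.lift ![A, B] y = B⁻¹ * A * B := by
    simp [y]
  have hz : FreeGroup.lift ![A, B] z = B⁻¹ * (B⁻¹ * A * B) * B := by
    unfold z
    rw [map_mul, map_mul, map_inv, hy]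
    simp
  rw [hy, hz, ← h]
  simp

/-- the homomorphism given by images of the generators -/
def hom {K : Type*} [Group K] (A B : K)
    (h : A = wd (B⁻¹ * A * B) (B⁻¹ * (B⁻¹ * A * B) * B)) : G →* K :=
  PresentedGroup.toGroup (hrel A B h)

theorem hom_a {K : Type*} [Group K] (A B : K)
    (h : A = wd (B⁻¹ * A * B) (B⁻¹ * (B⁻¹ * A * B) * B)) : hom A B h ga = A := by
  simp [hom, ga]

theorem hom_t {K : Type*} [Group K] (A B : K)
    (h : A = wd (B⁻¹ * A * B) (B⁻¹ * (B⁻¹ * A * B) * B)) : hom A B h gt = B := by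
  simp [hom, gt]

/-- the map from the free group on the two letters -/
def psi : FreeGroup (Fin 2) →* G := FreeGroup.lift ![gy, gz]

theorem psi0 : psi (FreeGroup.of 0) = gy := by simp [psi]
theorem psi1 : psi (FreeGroup.of 1) = gz := by simp [psi]

theorem t_y : gt * gy * gt⁻¹ = wd gy gz := by
  rw [← rel]; simp [gy, mul_assoc]

theorem t_z : gt * gz * gt⁻¹ = gy := by
  simp [gz, mul_assoc]

theorem t_range (u : G) (hu : u ∈ psi.range) : gt * u * gt⁻¹ ∈ psi.range := by
  obtain ⟨v, rfl⟩ := hu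
  have hh : ((MulAut.conj gt).toMonoidHom.comp psi) = psi.comp
      (FreeGroup.lift ![wd (FreeGroup.of 0) (FreeGroup.of 1), FreeGroup.of 0]) := by
    ext1 i
    fin_cases i
    · show (MulAut.conj gt) (psi (FreeGroup.of (0 : Fin 2))) = psi (FreeGroup.lift
        ![wd (FreeGroup.of 0) (FreeGroup.of 1), FreeGroup.of 0] (FreeGroup.of (0 : Fin 2)))
      rw [psi0, FreeGroup.lift_apply_of]
      show gt * gy * gt⁻¹ = psi (wd (FreeGroup.of 0) (FreeGroup.of 1))
      rw [map_wd, psi0, psi1, t_y]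
    · show (MulAut.conj gt) (psi (FreeGroup.of (1 : Fin 2))) = psi (FreeGroup.lift
        ![wd (FreeGroup.of 0) (FreeGroup.of 1), FreeGroup.of 0] (FreeGroup.of (1 : Fin 2)))
      rw [psi1, FreeGroup.lift_apply_of]
      show gt * gz * gt⁻¹ = psi (FreeGroup.of 0)
      rw [psi0, t_z]
  exact ⟨_, (DFunLike.congr_fun hh v).symm⟩

theorem t_pow_range (k : ℕ) (u : G) (hu : u ∈ psi.range) : gt ^ k * u * (gt ^ k)⁻¹ ∈ psi.range := by
  induction k with
  | zero => simpa using hu
  | succ k ih =>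
    have := t_range _ ih
    rw [pow_succ']
    simpa [mul_assoc] using this

theorem a_range : ga ∈ psi.range := by
  rw [rel, ← psi0, ← psi1, ← map_wd]
  exact ⟨_, rfl⟩

/-- elements in normal form -/
def NF (g : G) : Prop := ∃ (k l : ℕ) (u : G), u ∈ psi.range ∧ g = (gt ^ k)⁻¹ * u * gt ^ l

theorem NF_range (g v : G) (hg : NF g) (hv : v ∈ psi.range) : NF (v * g) := by
  obtain ⟨k, l, u, hu, rfl⟩ := hg
  refine ⟨k, l, (gt ^ k * v * (gt ^ k)⁻¹) * u, mul_mem (t_pow_range k v hv) hu, ?_⟩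
  simp [mul_assoc]

theorem NF_t (g : G) (hg : NF g) : NF (gt * g) := by
  obtain ⟨k, l, u, hu, rfl⟩ := hg
  cases k with
  | zero =>
    refine ⟨0, l + 1, gt * u * gt⁻¹, t_range u hu, ?_⟩
    rw [pow_succ']
    simp [mul_assoc]
  | succ k =>
    refine ⟨k, l, u, hu, ?_⟩
    rw [pow_succ]
    simp [mul_assoc]

theorem NF_tinv (g : G) (hg : NF g) : NF (gt⁻¹ * g) := by
  obtain ⟨k, l, u, hu, rfl⟩ := hg
  refine ⟨k + 1, l, u, hu, ?_⟩
  rw [pow_succ]
  simp [mul_assoc]

theorem NF_all (g : G) : NF g := by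
  have key : ∀ w : FreeGroup (Fin 2), ∀ h : G, NF h → NF (PresentedGroup.mk _ w * h) := by
    intro w
    induction w using FreeGroup.induction_on with
    | C1 => intro h hh; simpa using hh
    | of i =>
      intro h hh
      fin_cases i
      · exact NF_range h ga hh a_range
      · exact NF_t h hh
    | inv_of i _ =>
      intro h hh
      fin_cases i
      · exact NF_range h ga⁻¹ hh (inv_mem a_range)
      · exact NF_tinv h hh
    | mul x x' h1 h2 =>
      intro h hh
      rw [map_mul, mul_assoc]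
      exact h1 _ (h2 _ hh)
  obtain ⟨w, rfl⟩ := PresentedGroup.mk_surjective _ g
  have := key w 1 ⟨0, 0, 1, one_mem _, by simp⟩
  simpa using this

/-- the permutation representation -/
noncomputable def omega (n : ℕ) : D n → SL(2, R5 n) := fun d => wd d.1.1 d.1.2

theorem conj1 (n : ℕ) : (T (SL(2, R5 n)) (PhiE n))⁻¹ * M (omega n) * T (SL(2, R5 n)) (PhiE n) =
    M (fun d : D n => d.1.1) := by
  rw [T_conj]
  congr 1
  funext d
  exact congrArg (fun x : D n => x.1.1) (Phi_PhiE_symm n d)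

theorem conj2 (n : ℕ) : (T (SL(2, R5 n)) (PhiE n))⁻¹ * M (fun d : D n => d.1.1) *
    T (SL(2, R5 n)) (PhiE n) = M (fun d : D n => d.1.2) := by
  rw [T_conj]
  congr 1
  funext d
  exact congrArg (fun x : D n => x.1.2) (Phi_PhiE_symm n d)

theorem relP (n : ℕ) : M (omega n) =
    wd ((T (SL(2, R5 n)) (PhiE n))⁻¹ * M (omega n) * T (SL(2, R5 n)) (PhiE n))
      ((T (SL(2, R5 n)) (PhiE n))⁻¹ * ((T (SL(2, R5 n)) (PhiE n))⁻¹ * M (omega n) *
        T (SL(2, R5 n)) (PhiE n)) * T (SL(2, R5 n)) (PhiE n)) := by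
  rw [conj1, conj2, ← map_wd]
  congr 1

noncomputable def f (n : ℕ) : G →* Equiv.Perm (D n × SL(2, R5 n)) :=
  hom (M (omega n)) (T (SL(2, R5 n)) (PhiE n)) (relP n)

theorem f_y (n : ℕ) : f n gy = M (fun d : D n => d.1.1) := by
  unfold gy f
  rw [map_mul, map_mul, map_inv, hom_a, hom_t, conj1]

theorem f_z (n : ℕ) : f n gz = M (fun d : D n => d.1.2) := by
  unfold gz
  rw [map_mul, map_mul, map_inv, f_y]
  unfold f
  rw [hom_t, conj2]

theorem f_psi (n : ℕ) (v : FreeGroup (Fin 2)) (d : D n) (h : SL(2, R5 n)) :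
    f n (psi v) (d, h) = (d, FreeGroup.lift ![d.1.1, d.1.2] v * h) := by
  have h1 : (f n).comp psi = M.comp
      (FreeGroup.lift ![(fun d : D n => d.1.1), (fun d : D n => d.1.2)]) := by
    ext1 i
    fin_cases i
    · show f n (psi (FreeGroup.of 0)) = M (FreeGroup.lift _ (FreeGroup.of 0))
      rw [psi0, f_y, FreeGroup.lift_apply_of]; rfl
    · show f n (psi (FreeGroup.of 1)) = M (FreeGroup.lift _ (FreeGroup.of 1))
      rw [psi1, f_z, FreeGroup.lift_apply_of]; rfl
  have h2 : (Pi.evalMonoidHom (fun _ : D n => SL(2, R5 n)) d).comp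
      (FreeGroup.lift ![(fun d : D n => d.1.1), (fun d : D n => d.1.2)]) =
      FreeGroup.lift ![d.1.1, d.1.2] := by
    ext1 i
    fin_cases i <;> simp
  have h3 : f n (psi v) = M (FreeGroup.lift ![(fun d : D n => d.1.1), (fun d : D n => d.1.2)] v) :=
    DFunLike.congr_fun h1 v
  have h4 : FreeGroup.lift ![(fun d : D n => d.1.1), (fun d : D n => d.1.2)] v d =
      FreeGroup.lift ![d.1.1, d.1.2] v := DFunLike.congr_fun h2 v
  rw [h3, ← h4]
  rfl

/-- the base point -/
def red5 (n : ℕ) : SL(2, ℤ) →* SL(2, R5 n) := Matrix.SpecialLinearGroup.map (Int.castRingHom (R5 n))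

def d0 (n : ℕ) : D n :=
  ⟨(red5 n (U 6), red5 n (L 2)), 0, by
    ext i j
    show toF n ((U 6 i j : ℤ) : R5 n) = _
    rw [map_intCast]
    fin_cases i <;> fin_cases j <;> decide +kernel, by
    ext i j
    show toF n ((L 2 i j : ℤ) : R5 n) = _
    rw [map_intCast]
    fin_cases i <;> fin_cases j <;> decide +kernel⟩

theorem psi_detect (v : FreeGroup (Fin 2)) (hv : v ≠ 1) : ∃ n, f n (psi v) ≠ 1 := by
  have h1 : FreeGroup.lift ![U 6, L 2] v ≠ 1 := by
    intro h
    exact hv (sanov 6 2 (by norm_num) (by norm_num) (h.trans (map_one _).symm))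
  obtain ⟨i, j, hij⟩ : ∃ i j, FreeGroup.lift ![U 6, L 2] v i j ≠ (1 : SL(2, ℤ)) i j := by
    by_contra hcon
    push Not at hcon
    exact h1 (by ext i j; exact hcon i j)
  set x : ℤ := FreeGroup.lift ![U 6, L 2] v i j - (1 : SL(2, ℤ)) i j with hx
  have hx0 : x ≠ 0 := sub_ne_zero.mpr hij
  refine ⟨x.natAbs, ?_⟩
  intro hf
  set n := x.natAbs with hn
  have h2 := f_psi n v (d0 n) 1
  rw [hf] at h2
  have h3 : FreeGroup.lift ![(d0 n).1.1, (d0 n).1.2] v = 1 := by
    have := congrArg Prod.snd h2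
    simpa using this.symm
  have h4 : (red5 n).comp (FreeGroup.lift ![U 6, L 2]) =
      FreeGroup.lift ![(d0 n).1.1, (d0 n).1.2] := by
    ext1 i
    fin_cases i <;> simp [d0]
  rw [← h4, MonoidHom.comp_apply] at h3
  have h5 := congrArg (fun N : SL(2, R5 n) => N i j) h3
  have h6 : ((FreeGroup.lift ![U 6, L 2] v i j : ℤ) : R5 n) = (((1 : SL(2, ℤ)) i j : ℤ) : R5 n) := by
    have h7 : (red5 n) 1 = 1 := map_one _
    have h8 := congrArg (fun N : SL(2, R5 n) => N i j) h7
    exact h5.trans h8.symm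
  have h9 : ((x : ℤ) : R5 n) = 0 := by
    rw [hx, Int.cast_sub, h6, sub_self]
  rw [ZMod.intCast_zmod_eq_zero_iff_dvd] at h9
  have h10 := Int.natAbs_dvd_natAbs.mpr h9
  have h11 : 5 ^ (n + 1) ≤ n := by
    have := Nat.le_of_dvd (Int.natAbs_pos.mpr hx0) h10
    simpa using this
  have h12 : n < 5 ^ n := Nat.lt_pow_self (by norm_num)
  have h13 : 5 ^ n ≤ 5 ^ (n + 1) := Nat.pow_le_pow_right (by norm_num) (by omega)
  omega

theorem cyc_rel (m : ℕ) : (1 : Multiplicative (ZMod m)) =
    wd ((Multiplicative.ofAdd (1 : ZMod m))⁻¹ * 1 * (Multiplicative.ofAdd (1 : ZMod m)))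
      ((Multiplicative.ofAdd (1 : ZMod m))⁻¹ * ((Multiplicative.ofAdd (1 : ZMod m))⁻¹ * 1 *
        (Multiplicative.ofAdd (1 : ZMod m))) * (Multiplicative.ofAdd (1 : ZMod m))) := by
  simp [wd]

def cyc (m : ℕ) : G →* Multiplicative (ZMod m) := hom 1 (Multiplicative.ofAdd (1 : ZMod m)) (cyc_rel m)

theorem cyc_psi (m : ℕ) (v : FreeGroup (Fin 2)) : cyc m (psi v) = 1 := by
  have : (cyc m).comp psi = 1 := by
    ext1 i
    have hy : cyc m gy = 1 := by
      unfold gy cyc
      rw [map_mul, map_mul, map_inv, hom_a, hom_t]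
      simp
    fin_cases i
    · show cyc m (psi (FreeGroup.of 0)) = 1
      rw [psi0, hy]
    · show cyc m (psi (FreeGroup.of 1)) = 1
      rw [psi1]
      unfold gz
      rw [map_mul, map_mul, map_inv, hy]
      simp
  exact DFunLike.congr_fun this v

theorem rf (g : G) (hg : g ≠ 1) : ∃ N : Subgroup G, N.Normal ∧ N.FiniteIndex ∧ g ∉ N := by
  obtain ⟨k, l, u, ⟨v, rfl⟩, rfl⟩ := NF_all g
  by_cases hkl : k = l
  · subst hkl
    have hv : v ≠ 1 := by
      rintro rfl
      apply hg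
      simp
    obtain ⟨n, hn⟩ := psi_detect v hv
    refine ⟨(f n).ker, inferInstance, ?_, ?_⟩
    · exact Subgroup.finiteIndex_ker (f n)
    · intro hmem
      rw [MonoidHom.mem_ker, map_mul, map_mul, map_inv] at hmem
      apply hn
      have := congrArg (fun x => (f n (gt ^ k)) * x * (f n (gt ^ k))⁻¹) hmem
      simpa [mul_assoc] using this
  · have hm : NeZero (k + l + 1) := ⟨by omega⟩
    refine ⟨(cyc (k + l + 1)).ker, inferInstance, ?_, ?_⟩
    · have : Finite (Multiplicative (ZMod (k + l + 1))) :=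
        inferInstanceAs (Finite (ZMod (k + l + 1)))
      exact Subgroup.finiteIndex_ker (cyc (k + l + 1))
    · intro hmem
      rw [MonoidHom.mem_ker, map_mul, map_mul, map_inv, cyc_psi, mul_one, inv_mul_eq_one,
        map_pow, map_pow] at hmem
      have ht : cyc (k + l + 1) gt = Multiplicative.ofAdd 1 := hom_t _ _ _
      rw [ht, ← ofAdd_nsmul, ← ofAdd_nsmul] at hmem
      have h1 := Multiplicative.ofAdd.injective hmem
      rw [nsmul_eq_mul, nsmul_eq_mul, mul_one, mul_one,
        ZMod.natCast_eq_natCast_iff] at h1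
      have h2 := Nat.ModEq.eq_of_lt_of_lt h1 (by omega) (by omega)
      exact hkl h2

theorem a_ne : ga ≠ 1 := by
  intro h
  obtain ⟨n, hn⟩ := psi_detect (FreeGroup.of 0) (FreeGroup.of_ne_one 0)
  apply hn
  rw [psi0]
  unfold gy
  rw [h]
  simp

theorem a_derived (k : ℕ) : ga ∈ derivedSeries G k := by
  induction k with
  | zero => simp
  | succ k ih =>
    have hn : (derivedSeries G k).Normal := derivedSeries_normal G k
    have hy : gy ∈ derivedSeries G k := by
      have := hn.conj_mem ga ih gt⁻¹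
      simpa [gy] using this
    have hz : gz ∈ derivedSeries G k := by
      have := hn.conj_mem gy hy gt⁻¹
      simpa [gz] using this
    rw [derivedSeries_succ, rel]
    unfold wd
    apply mul_mem
    · have := Subgroup.commutator_mem_commutator (inv_mem hy) (inv_mem hz)
      simpa [commutatorElement_def, mul_assoc] using this
    · have := Subgroup.commutator_mem_commutator (inv_mem hy) (inv_mem (mul_mem hz hz))
      simpa [commutatorElement_def, mul_assoc] using this

theorem main :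
    ∃ (n : ℕ) (r : FreeGroup (Fin n)),
      (∀ g : PresentedGroup ({r} : Set (FreeGroup (Fin n))), g ≠ 1 →
        ∃ N : Subgroup (PresentedGroup ({r} : Set (FreeGroup (Fin n)))),
          N.Normal ∧ N.FiniteIndex ∧ g ∉ N) ∧
      ∃ g : PresentedGroup ({r} : Set (FreeGroup (Fin n))), g ≠ 1 ∧
        ∀ k : ℕ, g ∈ derivedSeries (PresentedGroup ({r} : Set (FreeGroup (Fin n)))) k :=
  ⟨2, r, rf, ga, a_ne, a_derived⟩

end Pool.Agent.V1120.OneRel
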