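import Mathlib

set_option autoImplicit false

namespace Pool.Agent.V1120.CF

variable {T : Type} (g : ContextFreeGrammar T)

/-- `Gen s u`: the sentential form `s` generates the terminal word `u` -/
inductive Gen : List (Symbol T g.NT) → List T → Prop
  | nil : Gen [] []
  | term (a : T) {s : List (Symbol T g.NT)} {u : List T} : Gen s u →
      Gen (Symbol.terminal a :: s) (a :: u)
  | nonterm {r : ContextFreeRule T g.NT} (hr : r ∈ g.rules) {s : List (Symbol T g.NT)}
      {v u : List T} : Gen r.output v → Gen s u → Gen (Symbol.nonterminal r.input :: s) (v ++ u)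

variable {g}

theorem Gen.append {s1 s2 : List (Symbol T g.NT)} {u1 u2 : List T} (h1 : Gen g s1 u1)
    (h2 : Gen g s2 u2) : Gen g (s1 ++ s2) (u1 ++ u2) := by
  induction h1 with
  | nil => simpa using h2
  | term a _ ih => exact Gen.term a ih
  | nonterm hr hv _ _ ih =>
    rw [List.append_assoc]
    exact Gen.nonterm hr hv ih

theorem Gen.split {s1 s2 : List (Symbol T g.NT)} {u : List T} (h : Gen g (s1 ++ s2) u) :
    ∃ u1 u2, u = u1 ++ u2 ∧ Gen g s1 u1 ∧ Gen g s2 u2 := by
  induction s1 generalizing u with
  | nil => exact ⟨[], u, rfl, Gen.nil, h⟩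
  | cons a s1 ih =>
    rw [List.cons_append] at h
    cases h with
    | term a h =>
      obtain ⟨u1, u2, rfl, h1, h2⟩ := ih h
      exact ⟨a :: u1, u2, rfl, Gen.term a h1, h2⟩
    | nonterm hr hv h =>
      obtain ⟨u1, u2, rfl, h1, h2⟩ := ih h
      exact ⟨_ ++ u1, u2, by simp, Gen.nonterm hr hv h1, h2⟩

theorem Gen.terminals (w : List T) : Gen g (w.map Symbol.terminal) w := by
  induction w with
  | nil => exact Gen.nil
  | cons a w ih => exact Gen.term a ih

theorem gen_of_derives {s : List (Symbol T g.NT)} {w : List T}
    (h : g.Derives s (w.map Symbol.terminal)) : Gen g s w := by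
  induction h using Relation.ReflTransGen.head_induction_on with
  | refl => exact Gen.terminals w
  | head h1 _ ih =>
    obtain ⟨r, hr, h2⟩ := h1
    obtain ⟨p, q, rfl, rfl⟩ := h2.exists_parts
    obtain ⟨u1, u2, rfl, h3, h4⟩ := ih.split
    obtain ⟨u3, u4, rfl, h5, h6⟩ := h3.split
    exact (h5.append (by simpa using Gen.nonterm hr h6 Gen.nil)).append h4

theorem derives_of_gen {s : List (Symbol T g.NT)} {w : List T} (h : Gen g s w) :
    g.Derives s (w.map Symbol.terminal) := by
  induction h with
  | nil => exact ContextFreeGrammar.Derives.refl _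
  | @term a s u _ ih => exact ih.append_left [Symbol.terminal a]
  | @nonterm r hr s v u _ _ ih1 ih2 =>
    have h1 : g.Produces [Symbol.nonterminal r.input] r.output :=
      ⟨r, hr, ContextFreeRule.Rewrites.input_output⟩
    have h2 : g.Derives [Symbol.nonterminal r.input] (v.map Symbol.terminal) :=
      h1.trans_derives ih1
    have h3 := h2.append_right s
    have h4 := ih2.append_left (v.map Symbol.terminal)
    rw [List.map_append]
    exact h3.trans h4

theorem gen_iff (w : List T) : Gen g [Symbol.nonterminal g.initial] w ↔ w ∈ g.language :=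
  ⟨fun h => (ContextFreeGrammar.mem_language_iff _ _).mpr (derives_of_gen h),
   fun h => gen_of_derives ((ContextFreeGrammar.mem_language_iff _ _).mp h)⟩

section tri

variable {M : Type} [Monoid M] (t : T → M) (e : M)

/-- the value of a word -/
def val (w : List T) : M := (w.map t).prod

theorem val_append (u v : List T) : val t (u ++ v) = val t u * val t v := by
  simp [val]

theorem val_nil : val t [] = 1 := rfl

def near (p q : M) (k : ℕ) : Prop := ∃ w : List T, w.length ≤ k ∧ p * val t w = q

theorem near_refl (p : M) (k : ℕ) : near t p p k := ⟨[], by simp, by simp [val]⟩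

variable {t} in
theorem near.mono {p q : M} {k l : ℕ} (h : near t p q k) (hkl : k ≤ l) : near t p q l := by
  obtain ⟨w, h1, h2⟩ := h
  exact ⟨w, h1.trans hkl, h2⟩

variable {t} in
theorem near.trans {p q r : M} {k l : ℕ} (h : near t p q k) (h' : near t q r l) :
    near t p r (k + l) := by
  obtain ⟨w, h1, h2⟩ := h
  obtain ⟨w', h3, h4⟩ := h'
  exact ⟨w ++ w', by rw [List.length_append]; omega, by rw [val_append, ← mul_assoc, h2, h4]⟩

/-- valid contexts -/
def Ctx (s : List (Symbol T g.NT)) (x y : List T) : Prop :=
  ∀ w, Gen g s w → e * val t (x ++ w ++ y) = e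

variable (g) in
/-- a bound for short words -/
noncomputable def len (A : g.NT) : ℕ :=
  sInf {n | ∃ v : List T, v.length = n ∧ Gen g [Symbol.nonterminal A] v}

variable (g) in
noncomputable def K : ℕ := g.rules.sup (fun r => len g r.input) + 1

variable (g) in
def m : ℕ := g.rules.sup (fun r => r.output.length) + 1

theorem exists_short {r : ContextFreeRule T g.NT} (hr : r ∈ g.rules) {v : List T}
    (hv : Gen g [Symbol.nonterminal r.input] v) :
    ∃ v0 : List T, v0.length ≤ K g ∧ Gen g [Symbol.nonterminal r.input] v0 := by
  have hne : {n | ∃ v : List T, v.length = n ∧ Gen g [Symbol.nonterminal r.input] v}.Nonempty :=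
    ⟨_, v, rfl, hv⟩
  obtain ⟨v0, h1, h2⟩ := Nat.sInf_mem hne
  refine ⟨v0, ?_, h2⟩
  rw [h1]
  have := Finset.le_sup (f := fun r : ContextFreeRule T g.NT => len g r.input) hr
  unfold K
  exact this.trans (Nat.le_succ _)

variable (co : ∀ x x' y : List T, e * val t (x ++ y) = e → e * val t (x' ++ y) = e →
  e * val t x = e * val t x')

include co in
theorem near_gen {s : List (Symbol T g.NT)} {u : List T} (h : Gen g s u) :
    ∀ x y : List T, Ctx (g := g) t e s x y →
      near t (e * val t x) (e * val t (x ++ u)) (s.length * K g) := by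
  induction h with
  | nil =>
    intro x y _
    rw [List.append_nil]
    exact near_refl _ _ _
  | @term a s u hu ih =>
    intro x y hctx
    have h1 := ih (x ++ [a]) y (by
      intro w hw
      have := hctx (a :: w) (Gen.term a hw)
      simpa using this)
    have h2 : near t (e * val t x) (e * val t (x ++ [a])) 1 :=
      ⟨[a], by simp, by rw [val_append, mul_assoc]⟩
    have h3 := h2.trans h1
    rw [List.append_assoc] at h3
    refine h3.mono ?_
    rw [List.length_cons, Nat.succ_mul]
    have : 1 ≤ K g := Nat.succ_le_succ (Nat.zero_le _)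
    omega
  | @nonterm r hr s v u hv hu ih1 ih2 =>
    intro x y hctx
    have hv1 : Gen g [Symbol.nonterminal r.input] v := by
      simpa using Gen.nonterm hr hv Gen.nil
    obtain ⟨v0, hlen, hv0⟩ := exists_short hr hv1
    have e1 : e * val t (x ++ v) = e * val t (x ++ v0) := by
      apply co _ _ (u ++ y)
      · have := hctx (v ++ u) (Gen.append hv1 hu)
        simpa using this
      · have := hctx (v0 ++ u) (Gen.append hv0 hu)
        simpa using this
    have h2 : near t (e * val t x) (e * val t (x ++ v)) (K g) :=
      ⟨v0, hlen, by rw [e1, val_append, mul_assoc]⟩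
    have h1 := ih2 (x ++ v) y (by
      intro w hw
      have := hctx (v ++ w) (Gen.nonterm hr hv hw)
      simpa using this)
    have h3 := h2.trans h1
    rw [List.append_assoc] at h3
    refine h3.mono ?_
    rw [List.length_cons, Nat.succ_mul]
    omega

include co in
theorem tri_gen {s : List (Symbol T g.NT)} {u : List T} (h : Gen g s u) :
    s.length ≤ m g → ∀ x y : List T, Ctx (g := g) t e s x y →
      ∀ α β γ : List T, u = α ++ (β ++ γ) →
      ∃ α1 β1 γ1, α1 <+: α ∧ β1 <+: β ∧ γ1 <+: γ ∧
        near t (e * val t (x ++ α1)) (e * val t (x ++ α ++ β1)) (m g * K g) ∧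
        near t (e * val t (x ++ α ++ β1)) (e * val t (x ++ α ++ β ++ γ1)) (m g * K g) ∧
        near t (e * val t (x ++ α1)) (e * val t (x ++ α ++ β ++ γ1)) (m g * K g) := by
  induction h with
  | nil =>
    intro _ x y _ α β γ hu
    have h1 : α = [] ∧ β = [] ∧ γ = [] := by
      simpa using hu.symm
    obtain ⟨rfl, rfl, rfl⟩ := h1
    refine ⟨[], [], [], List.prefix_rfl, List.prefix_rfl, List.prefix_rfl, ?_, ?_, ?_⟩ <;>
    simpa using near_refl t _ _
  | @term a s u hu ih =>
    intro hs x y hctx α β γ hα
    cases α with
    | nil =>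
      have h1 := near_gen t e co (Gen.term a hu) x y hctx
      have h2 := h1.mono (Nat.mul_le_mul_right (K g) hs)
      rw [List.nil_append] at hα
      rw [hα] at h2
      refine ⟨[], [], γ, List.prefix_rfl, List.nil_prefix, List.prefix_rfl, ?_, ?_, ?_⟩
      · simpa using near_refl t _ _
      · simpa using h2
      · simpa using h2
    | cons a' α =>
      rw [List.cons_append, List.cons.injEq] at hα
      obtain ⟨rfl, hα⟩ := hα
      obtain ⟨α1, β1, γ1, p1, p2, p3, n1, n2, n3⟩ := ih
        (by rw [List.length_cons] at hs; omega) (x ++ [a]) y (by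
          intro w hw
          have := hctx (a :: w) (Gen.term a hw)
          simpa using this) α β γ hα
      refine ⟨a :: α1, β1, γ1, ?_, p2, p3, ?_, ?_, ?_⟩
      · exact (List.prefix_cons_inj a).mpr p1
      · simpa using n1
      · simpa using n2
      · simpa using n3
  | @nonterm r hr s v u hv hu ih1 ih2 =>
    intro hs x y hctx α β γ hα
    rcases List.append_eq_append_iff.mp hα with ⟨α', rfl, hu'⟩ | ⟨δ, hv', hβ⟩
    · -- the whole of `v` is in `α`
      obtain ⟨α1, β1, γ1, p1, p2, p3, n1, n2, n3⟩ := ih2
        (by rw [List.length_cons] at hs; omega) (x ++ v) y (by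
          intro w hw
          have := hctx (v ++ w) (Gen.nonterm hr hv hw)
          simpa using this) α' β γ hu'
      refine ⟨v ++ α1, β1, γ1, ?_, p2, p3, ?_, ?_, ?_⟩
      · exact (List.prefix_append_right_inj v).mpr p1
      · simpa using n1
      · simpa using n2
      · simpa using n3
    · rcases List.append_eq_append_iff.mp hβ with ⟨δ', hδ, hγ⟩ | ⟨δ', hβ', hu'⟩
      · -- `β ⊆ v`
        have hlen : r.output.length ≤ m g := by
          have := Finset.le_sup (f := fun r : ContextFreeRule T g.NT => r.output.length) hr
          unfold m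
          exact this.trans (Nat.le_succ _)
        obtain ⟨α1, β1, γ1, p1, p2, p3, n1, n2, n3⟩ := ih1 hlen x (u ++ y) (by
          intro w hw
          have := hctx (w ++ u) (Gen.nonterm hr hw hu)
          simpa using this) α β δ' (by rw [hv', hδ])
        refine ⟨α1, β1, γ1, p1, p2, ?_, n1, n2, n3⟩
        rw [hγ]
        exact p3.trans (List.prefix_append _ _)
      · -- the boundary is in `β`
        have hv1 : Gen g [Symbol.nonterminal r.input] v := by
          simpa using Gen.nonterm hr hv Gen.nil
        have hctx1 : Ctx (g := g) t e [Symbol.nonterminal r.input] x (u ++ y) := by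
          intro w hw
          have := hctx (w ++ u) (Gen.append hw hu)
          simpa using this
        have hctx2 : Ctx (g := g) t e s (x ++ v) y := by
          intro w hw
          have := hctx (v ++ w) (Gen.nonterm hr hv hw)
          simpa using this
        have h1 := near_gen t e co hv1 x (u ++ y) hctx1
        have h2 := near_gen t e co hu (x ++ v) y hctx2
        have h3 := near_gen t e co (Gen.nonterm hr hv hu) x y hctx
        have hs' : s.length ≤ m g := by rw [List.length_cons] at hs; omega
        have hm1 : 1 ≤ m g := Nat.succ_le_succ (Nat.zero_le _)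
        refine ⟨[], δ, γ, List.nil_prefix, ?_, List.prefix_rfl, ?_, ?_, ?_⟩
        · rw [hβ']; exact List.prefix_append _ _
        · have := h1.mono (Nat.mul_le_mul_right (K g) hm1)
          simpa [hv'] using this
        · have := h2.mono (Nat.mul_le_mul_right (K g) hs')
          simpa [hv', hβ', hu'] using this
        · have := h3.mono (Nat.mul_le_mul_right (K g) hs)
          simpa [hv', hβ', hu'] using this

include co in
/-- the triangulation property -/
theorem tri (hL : ∀ w, w ∈ g.language ↔ e * val t w = e) (α β γ : List T)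
    (h : e * val t (α ++ (β ++ γ)) = e) :
    ∃ α1 β1 γ1, α1 <+: α ∧ β1 <+: β ∧ γ1 <+: γ ∧
        near t (e * val t α1) (e * val t (α ++ β1)) (m g * K g) ∧
        near t (e * val t (α ++ β1)) (e * val t (α ++ β ++ γ1)) (m g * K g) ∧
        near t (e * val t α1) (e * val t (α ++ β ++ γ1)) (m g * K g) := by
  have h1 : Gen g [Symbol.nonterminal g.initial] (α ++ (β ++ γ)) := by
    rw [gen_iff, hL]; exact h
  have := tri_gen t e co h1 (Nat.succ_le_succ (Nat.zero_le _)) [] [] (by
    intro w hw
    rw [gen_iff, hL] at hw
    simpa using hw) α β γ rfl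
  simpa using this

end tri

end Pool.Agent.V1120.CF
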