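import Mathlib

set_option autoImplicit false
open Set Topology Filter

namespace Pool.Agent.V1120.CKLattice

/-- A set `P` in a normed space is 2-separated. -/
def TwoSeparated {X : Type*} [NormedAddCommGroup X] (P : Set X) : Prop :=
  ∀ p ∈ P, ∀ q ∈ P, p ≠ q → 2 ≤ ‖p - q‖

/-- A set `P` in a normed space is `r`-dense. -/
def RDense {X : Type*} [NormedAddCommGroup X] (P : Set X) (r : ℝ) : Prop :=
  ∀ x : X, ∃ p ∈ P, ‖x - p‖ ≤ r

/-- The lattice simultaneous packing and covering constant. -/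
noncomputable def gammaStar (X : Type*) [NormedAddCommGroup X] : ℝ :=
  sInf {r : ℝ | 0 < r ∧ ∃ P : AddSubgroup X, RDense (P : Set X) r ∧ TwoSeparated (P : Set X)}

/-! ### selecting distinct points -/

lemma choose_points {α β : Type*} (T : Set α) (hT : T.Finite) (V : α → Set β)
    (hV : ∀ a ∈ T, (V a).Infinite) (b0 : β) :
    ∃ s : α → β, (∀ a ∈ T, s a ∈ V a) ∧ InjOn s T := by
  classical
  induction T, hT using Set.Finite.induction_on with
  | empty => exact ⟨fun _ => b0, by simp, by simp⟩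
  | @insert a T ha hT ih =>
    obtain ⟨s, hs, hinj⟩ := ih (fun b hb => hV b (mem_insert_of_mem _ hb))
    have hinf : (V a \ s '' T).Infinite := (hV a (mem_insert _ _)).sdiff (hT.image s)
    obtain ⟨b, hbV, hbT⟩ := hinf.nonempty
    refine ⟨Function.update s a b, ?_, ?_⟩
    · intro x hx
      rcases eq_or_ne x a with rfl | hxa
      · simpa using hbV
      · rw [Function.update_of_ne hxa]
        exact hs x (hx.resolve_left hxa)
    · intro x hx y hy hxy
      rcases eq_or_ne x a with rfl | hxa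
      · rcases eq_or_ne y x with rfl | hya
        · rfl
        · exfalso
          rw [Function.update_self, Function.update_of_ne hya] at hxy
          exact hbT ⟨y, hy.resolve_left hya, hxy.symm⟩
      · rcases eq_or_ne y a with rfl | hya
        · exfalso
          rw [Function.update_self, Function.update_of_ne hxa] at hxy
          exact hbT ⟨x, hx.resolve_left hxa, hxy⟩
        · rw [Function.update_of_ne hxa, Function.update_of_ne hya] at hxy
          exact hinj (hx.resolve_left hxa) (hy.resolve_left hya) hxy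

/-! ### the octahedral lemma -/

section Oct

variable {X : Type*} [TopologicalSpace X] [CompactSpace X] [T2Space X]

lemma exists_interp (A : Set X) (hA : A.Finite) (c : ℝ) (hc : 0 ≤ c) (val : X → ℝ)
    (hval : ∀ x, |val x| ≤ c) :
    ∃ z : C(X, ℝ), (∀ x, |z x| ≤ c) ∧ ∀ a ∈ A, z a = val a := by
  have : Finite A := hA
  have : DiscreteTopology A := inferInstance
  let f : C(A, ℝ) := ⟨fun a => val a, continuous_of_discreteTopology⟩
  obtain ⟨g, hg, hgf⟩ := ContinuousMap.exists_restrict_eq_forall_mem_of_closed (t := Icc (-c) c) f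
    (fun x => abs_le.mp (hval x)) ⟨0, by constructor <;> linarith⟩ hA.isClosed
  refine ⟨g, fun x => abs_le.mpr (hg x), fun a ha => ?_⟩
  have := congrArg (fun h : C(A, ℝ) => h ⟨a, ha⟩) hgf
  simpa [f] using this

lemma octahedral (hX : ∀ U : Set X, IsOpen U → U.Nonempty → U.Infinite)
    (W : Submodule ℝ C(X, ℝ)) [FiniteDimensional ℝ W] (hW : ∃ w ∈ W, w ≠ 0)
    (c : ℝ) (hc : 1 < c) :
    ∃ z : C(X, ℝ), ‖z‖ ≤ c ∧ ∀ u ∈ W, ∃ t, ‖u‖ / c ≤ |u t| ∧ |z t| = c ∧ 0 ≤ u t * z t := by
  classical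
  have hc0 : 0 < c := by linarith
  have hcinv : 1 / c < 1 := by rw [div_lt_one hc0]; exact hc
  have hcinv0 : 0 < 1 / c := by positivity
  set η : ℝ := (1 - 1 / c) / 2 with hη
  have hη0 : 0 < η := by rw [hη]; linarith
  have hη1 : 1 - 2 * η = 1 / c := by rw [hη]; ring
  have : ProperSpace W := FiniteDimensional.proper ℝ W
  obtain ⟨T, hTS, hTfin, hTcov⟩ :=
    (isCompact_sphere (0 : W) 1).finite_cover_balls hη0
  obtain ⟨w0, hw0W, hw0⟩ := hW
  -- points
  have hTnorm : ∀ v ∈ T, ‖(v : C(X, ℝ))‖ = 1 := by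
    intro v hv
    have := hTS hv
    rw [mem_sphere_zero_iff_norm] at this
    exact this
  let V : W → Set X := fun v => {t | 1 - η < |(v : C(X, ℝ)) t|}
  have hVopen : ∀ v, IsOpen (V v) := by
    intro v
    exact isOpen_lt continuous_const ((v : C(X, ℝ)).continuous.abs)
  have hVne : ∀ v ∈ T, (V v).Nonempty := by
    intro v hv
    by_contra hcon
    rw [not_nonempty_iff_eq_empty] at hcon
    have h1 : ‖(v : C(X, ℝ))‖ ≤ 1 - η := by
      rw [ContinuousMap.norm_le _ (by linarith)]
      intro t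
      by_contra hlt
      have : t ∈ V v := by
        simp only [V, mem_ofPred_eq]
        rw [not_le, Real.norm_eq_abs] at hlt
        exact hlt
      rw [hcon] at this
      exact this
    rw [hTnorm v hv] at h1
    linarith
  -- T nonempty
  have hnorm : ∀ u : C(X, ℝ), u ∈ W → u ≠ 0 → ∃ v ∈ T, ‖(‖u‖⁻¹ • u) - (v : C(X, ℝ))‖ < η := by
    intro u hu hu0
    have hun : 0 < ‖u‖ := norm_pos_iff.mpr hu0
    have hmem : (⟨‖u‖⁻¹ • u, W.smul_mem _ hu⟩ : W) ∈ Metric.sphere (0 : W) 1 := by
      rw [mem_sphere_zero_iff_norm]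
      change ‖‖u‖⁻¹ • u‖ = 1
      rw [norm_smul, norm_inv, norm_norm, inv_mul_cancel₀ hun.ne']
    have := hTcov hmem
    simp only [mem_iUnion] at this
    obtain ⟨v, hv, hvb⟩ := this
    refine ⟨v, hv, ?_⟩
    rw [Metric.mem_ball, dist_eq_norm] at hvb
    exact hvb
  obtain ⟨v0, hv0, -⟩ := hnorm w0 hw0W hw0
  obtain ⟨b0, -⟩ := hVne v0 hv0
  obtain ⟨s, hsV, hsinj⟩ := choose_points T hTfin V
    (fun v hv => hX _ (hVopen v) (hVne v hv)) b0
  let val : X → ℝ := fun x =>
    if 0 ≤ ((Function.invFunOn s T x : W) : C(X, ℝ)) x then c else -c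
  have hval : ∀ x, |val x| ≤ c := by
    intro x
    simp only [val]
    split_ifs
    · rw [abs_of_pos hc0]
    · rw [abs_neg, abs_of_pos hc0]
  obtain ⟨z, hz, hzA⟩ := exists_interp (s '' T) (hTfin.image s) c hc0.le val hval
  have hzs : ∀ v ∈ T, z (s v) = if 0 ≤ (v : C(X, ℝ)) (s v) then c else -c := by
    intro v hv
    rw [hzA _ (mem_image_of_mem s hv)]
    simp only [val]
    have : Function.invFunOn s T (s v) = v := hsinj.leftInvOn_invFunOn hv
    rw [this]
  have habs : ∀ v ∈ T, |z (s v)| = c := by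
    intro v hv
    rw [hzs v hv]
    split_ifs
    · rw [abs_of_pos hc0]
    · rw [abs_neg, abs_of_pos hc0]
  refine ⟨z, ?_, ?_⟩
  · rw [ContinuousMap.norm_le _ hc0.le]
    intro x
    rw [Real.norm_eq_abs]
    exact hz x
  · intro u hu
    by_cases hu0 : u = 0
    · refine ⟨s v0, ?_, habs v0 hv0, ?_⟩
      · simp [hu0]
      · simp [hu0]
    · obtain ⟨v, hv, hvu⟩ := hnorm u hu hu0
      have hun : 0 < ‖u‖ := norm_pos_iff.mpr hu0
      have h1 : |‖u‖⁻¹ * u (s v) - (v : C(X, ℝ)) (s v)| < η := by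
        have h2 := ContinuousMap.norm_coe_le_norm ((‖u‖⁻¹ • u) - (v : C(X, ℝ))) (s v)
        have h3 := lt_of_le_of_lt h2 hvu
        simpa [Real.norm_eq_abs] using h3
      have h2 : 1 - η < |(v : C(X, ℝ)) (s v)| := hsV v hv
      have hzz := hzs v hv
      refine ⟨s v, ?_, habs v hv, ?_⟩
      · have h3 : 1 / c < |‖u‖⁻¹ * u (s v)| := by
          have := abs_sub_abs_le_abs_sub ((v : C(X, ℝ)) (s v)) (‖u‖⁻¹ * u (s v))
          rw [abs_sub_comm] at this
          linarith
        rw [abs_mul, abs_of_pos (inv_pos.mpr hun)] at h3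
        have h4 : ‖u‖ * (1 / c) < ‖u‖ * (‖u‖⁻¹ * |u (s v)|) := by
          exact mul_lt_mul_of_pos_left h3 hun
        rw [← mul_assoc, mul_inv_cancel₀ hun.ne', one_mul] at h4
        rw [div_eq_mul_one_div]
        exact h4.le
      · rw [hzz]
        have hη2 : η < 1 - η := by linarith
        rw [abs_lt] at h1
        split_ifs with hpos
        · rw [abs_of_nonneg hpos] at h2
          have h5 : 0 < ‖u‖⁻¹ * u (s v) := by linarith
          have h6 : 0 < u (s v) := by
            rcases (mul_pos_iff.mp h5) with h | h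
            · exact h.2
            · exact absurd h.1 (not_lt.mpr (inv_pos.mpr hun).le)
          positivity
        · push Not at hpos
          rw [abs_of_neg hpos] at h2
          have h5 : ‖u‖⁻¹ * u (s v) < 0 := by linarith
          have h6 : u (s v) < 0 := by
            by_contra hcon
            push Not at hcon
            have : 0 ≤ ‖u‖⁻¹ * u (s v) := mul_nonneg (inv_pos.mpr hun).le hcon
            linarith
          nlinarith

end Oct


/-! ### the inductive construction -/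

section Build

variable {K : Type*} [TopologicalSpace K] [CompactSpace K] [T2Space K]

/-- Restriction to a subset as a group homomorphism. -/
def R (Z : Set K) : C(K, ℝ) →+ C(Z, ℝ) where
  toFun f := f.restrict Z
  map_zero' := rfl
  map_add' _ _ := rfl

lemma R_apply (Z : Set K) (f : C(K, ℝ)) (t : Z) : R Z f t = f t := rfl

lemma step (Z : Set K) (hZ : IsClosed Z) [CompactSpace Z]
    (hper : ∀ U : Set Z, IsOpen U → U.Nonempty → U.Infinite) (c : ℝ) (hc : 1 < c)
    (S : Finset C(K, ℝ))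
    (hS : ∀ y ∈ AddSubgroup.closure (S : Set C(K, ℝ)), y ≠ 0 → 2 ≤ ‖R Z y‖) (f : C(Z, ℝ)) :
    ∃ S' : Finset C(K, ℝ), S ⊆ S' ∧
      (∀ y ∈ AddSubgroup.closure (S' : Set C(K, ℝ)), y ≠ 0 → 2 ≤ ‖R Z y‖) ∧
      ∃ y ∈ AddSubgroup.closure (S' : Set C(K, ℝ)), ‖f - R Z y‖ ≤ c := by
  classical
  have hc0 : 0 < c := by linarith
  by_cases h : ∃ y ∈ AddSubgroup.closure (S : Set C(K, ℝ)), ‖f - R Z y‖ ≤ c
  · exact ⟨S, Finset.Subset.refl _, hS, h⟩
  push Not at h
  set W : Submodule ℝ C(Z, ℝ) := Submodule.span ℝ (R Z '' (S : Set C(K, ℝ)) ∪ {f}) with hW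
  have hfin : FiniteDimensional ℝ W := by
    apply FiniteDimensional.span_of_finite
    exact (S.finite_toSet.image _).union (finite_singleton f)
  have hfW : f ∈ W := Submodule.subset_span (Or.inr rfl)
  have hclW : ∀ y ∈ AddSubgroup.closure (S : Set C(K, ℝ)), R Z y ∈ W := by
    have : AddSubgroup.closure (S : Set C(K, ℝ)) ≤ (W.toAddSubgroup).comap (R Z) := by
      rw [AddSubgroup.closure_le]
      intro y hy
      exact Submodule.subset_span (Or.inl ⟨y, hy, rfl⟩)
    intro y hy
    exact this hy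
  have hf0 : f ≠ 0 := by
    rintro rfl
    have := h 0 (AddSubgroup.zero_mem _)
    rw [map_zero, sub_zero, norm_zero] at this
    linarith
  obtain ⟨z, hz, hzW⟩ := octahedral hper W ⟨f, hfW, hf0⟩ c hc
  obtain ⟨p, hp⟩ := ContinuousMap.exists_restrict_eq hZ (f + z)
  have hRp : R Z p = f + z := hp
  have key : ∀ m : ℤ, 1 ≤ m → ∀ y ∈ AddSubgroup.closure (S : Set C(K, ℝ)),
      2 ≤ ‖R Z (m • p + y)‖ := by
    intro m hm y hy
    have hm' : (1 : ℝ) ≤ m := by exact_mod_cast hm
    have huW : R Z y + (m : ℝ) • f ∈ W := W.add_mem (hclW y hy) (W.smul_mem _ hfW)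
    obtain ⟨t, ht1, ht2, ht3⟩ := hzW _ huW
    have hval : R Z (m • p + y) t = (R Z y + (m : ℝ) • f) t + m * z t := by
      rw [map_add, map_zsmul, hRp]
      have h7 : (m • (f + z)) t = (m : ℝ) * (f t + z t) := by
        rw [← Int.cast_smul_eq_zsmul ℝ m (f + z)]
        rfl
      rw [ContinuousMap.add_apply, h7, ContinuousMap.add_apply, ContinuousMap.smul_apply,
        smul_eq_mul]
      ring
    have hle : |R Z (m • p + y) t| ≤ ‖R Z (m • p + y)‖ := by
      have := ContinuousMap.norm_coe_le_norm (R Z (m • p + y)) t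
      rwa [Real.norm_eq_abs] at this
    have habs : |R Z (m • p + y) t| = |(R Z y + (m : ℝ) • f) t| + m * c := by
      rw [hval]
      generalize (R Z y + (m : ℝ) • f) t = a at *
      rcases (abs_eq hc0.le).mp ht2 with hzt | hzt
      · rw [hzt] at ht3 ⊢
        have ha : 0 ≤ a := by
          by_contra hcon
          push Not at hcon
          nlinarith
        rw [abs_of_nonneg ha, abs_of_nonneg (by positivity)]
      · rw [hzt] at ht3 ⊢
        have ha : a ≤ 0 := by
          by_contra hcon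
          push Not at hcon
          nlinarith
        rw [abs_of_nonpos ha, abs_of_nonpos (by nlinarith)]
        ring
    rw [habs] at hle
    rcases eq_or_lt_of_le hm with hm1 | hm2
    · have hmr : (m : ℝ) = 1 := by rw [← hm1]; norm_num
      have h1 := h (-y) (AddSubgroup.neg_mem _ hy)
      rw [map_neg, sub_neg_eq_add] at h1
      have h2 : R Z y + (m : ℝ) • f = f + R Z y := by rw [hmr, one_smul, add_comm]
      rw [h2] at ht1 hle
      have h3 : 1 < ‖f + R Z y‖ / c := by rw [one_lt_div hc0]; exact h1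
      rw [hmr] at hle
      linarith
    · have hm2' : (2 : ℝ) ≤ m := by exact_mod_cast hm2
      have := abs_nonneg ((R Z y + (m : ℝ) • f) t)
      nlinarith
  refine ⟨insert p S, Finset.subset_insert _ _, ?_, p, ?_, ?_⟩
  · intro q hq hq0
    rw [Finset.coe_insert, insert_eq, AddSubgroup.closure_union, AddSubgroup.mem_sup] at hq
    obtain ⟨a, ha, y, hy, rfl⟩ := hq
    rw [← AddSubgroup.zmultiples_eq_closure, AddSubgroup.mem_zmultiples_iff] at ha
    obtain ⟨m, rfl⟩ := ha
    rcases lt_trichotomy m 0 with hm | hm | hm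
    · have h1 := key (-m) (by omega) (-y) (AddSubgroup.neg_mem _ hy)
      have h2 : (-m) • p + -y = -(m • p + y) := by rw [neg_smul]; abel
      rw [h2, map_neg, norm_neg] at h1
      exact h1
    · subst hm
      rw [zero_smul, zero_add] at hq0 ⊢
      exact hS y hy hq0
    · exact key m (by omega) y hy
  · exact AddSubgroup.subset_closure (by simp)
  · rw [hRp]
    have : f - (f + z) = -z := by abel
    rw [this, norm_neg]
    exact hz

lemma exists_lattice (Z : Set K) (hZ : IsClosed Z) [CompactSpace Z]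
    [TopologicalSpace.SeparableSpace C(Z, ℝ)]
    (hper : ∀ U : Set Z, IsOpen U → U.Nonempty → U.Infinite) (c : ℝ) (hc : 1 < c) :
    ∃ P : AddSubgroup C(K, ℝ), (∀ y ∈ P, y ≠ 0 → 2 ≤ ‖R Z y‖) ∧
      ∀ f : C(Z, ℝ), ∀ ε : ℝ, 0 < ε → ∃ y ∈ P, ‖f - R Z y‖ ≤ c + ε := by
  classical
  let State := {S : Finset C(K, ℝ) //
    ∀ y ∈ AddSubgroup.closure (S : Set C(K, ℝ)), y ≠ 0 → 2 ≤ ‖R Z y‖}
  have hnext : ∀ (s : State) (f : C(Z, ℝ)), ∃ s' : State, s.1 ⊆ s'.1 ∧
      ∃ y ∈ AddSubgroup.closure (s'.1 : Set C(K, ℝ)), ‖f - R Z y‖ ≤ c := by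
    intro s f
    obtain ⟨S', h1, h2, h3⟩ := step Z hZ hper c hc s.1 s.2 f
    exact ⟨⟨S', h2⟩, h1, h3⟩
  choose next hn1 hn2 using hnext
  let d := TopologicalSpace.denseSeq C(Z, ℝ)
  let s0 : State := ⟨∅, by
    intro y hy hy0
    rw [Finset.coe_empty, AddSubgroup.closure_empty, AddSubgroup.mem_bot] at hy
    exact absurd hy hy0⟩
  let seq : ℕ → State := fun n => Nat.rec s0 (fun k s => next s (d k)) n
  have hseq : ∀ n, seq (n + 1) = next (seq n) (d n) := fun n => rfl
  have hmono : Monotone fun n => AddSubgroup.closure ((seq n).1 : Set C(K, ℝ)) := by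
    apply monotone_nat_of_le_succ
    intro n
    apply AddSubgroup.closure_mono
    rw [hseq]
    exact_mod_cast hn1 (seq n) (d n)
  have hdir : Directed (· ≤ ·) fun n => AddSubgroup.closure ((seq n).1 : Set C(K, ℝ)) :=
    hmono.directed_le
  refine ⟨⨆ n, AddSubgroup.closure ((seq n).1 : Set C(K, ℝ)), ?_, ?_⟩
  · intro y hy hy0
    rw [AddSubgroup.mem_iSup_of_directed hdir] at hy
    obtain ⟨n, hn⟩ := hy
    exact (seq n).2 y hn hy0
  · intro f ε hε
    obtain ⟨g, hg, ⟨n, rfl⟩⟩ := Metric.dense_iff.mp (TopologicalSpace.denseRange_denseSeq C(Z, ℝ)) f ε hε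
    obtain ⟨y, hy, hyn⟩ := hn2 (seq n) (d n)
    refine ⟨y, ?_, ?_⟩
    · rw [AddSubgroup.mem_iSup_of_directed hdir]
      refine ⟨n + 1, ?_⟩
      rw [hseq]
      exact hy
    · rw [Metric.mem_ball, dist_comm, dist_eq_norm] at hg
      calc ‖f - R Z y‖ = ‖(f - d n) + (d n - R Z y)‖ := by congr 1; abel
        _ ≤ ‖f - d n‖ + ‖d n - R Z y‖ := norm_add_le _ _
        _ ≤ c + ε := by
            have : ‖f - d n‖ < ε := hg
            linarith

end Build

end Pool.Agent.V1120.CKLattice
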