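import Pool.Agent.V1120.CKLattice

set_option autoImplicit false
open Set Topology Filter

namespace Pool.Agent.V1120.CKLattice

section Top

variable {K : Type*} [TopologicalSpace K] [CompactSpace K] [T2Space K]

/-- Continuous functions with even integer values vanishing on `Z`. -/
def D (Z : Set K) : AddSubgroup C(K, ℝ) where
  carrier := {g | (∀ t ∈ Z, g t = 0) ∧ ∀ t, ∃ k : ℤ, g t = 2 * k}
  zero_mem' := ⟨fun _ _ => rfl, fun _ => ⟨0, by simp⟩⟩
  add_mem' := by
    rintro a b ⟨ha1, ha2⟩ ⟨hb1, hb2⟩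
    refine ⟨fun t ht => by rw [ContinuousMap.add_apply, ha1 t ht, hb1 t ht, add_zero], fun t => ?_⟩
    obtain ⟨k, hk⟩ := ha2 t
    obtain ⟨l, hl⟩ := hb2 t
    exact ⟨k + l, by rw [ContinuousMap.add_apply, hk, hl]; push_cast; ring⟩
  neg_mem' := by
    rintro a ⟨ha1, ha2⟩
    refine ⟨fun t ht => by rw [ContinuousMap.neg_apply, ha1 t ht, neg_zero], fun t => ?_⟩
    obtain ⟨k, hk⟩ := ha2 t
    exact ⟨-k, by rw [ContinuousMap.neg_apply, hk]; push_cast; ring⟩

lemma mem_D (Z : Set K) (g : C(K, ℝ)) :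
    g ∈ D Z ↔ (∀ t ∈ Z, g t = 0) ∧ ∀ t, ∃ k : ℤ, g t = 2 * k := Iff.rfl

/-- cut a continuous function to a clopen set -/
noncomputable def cut (C : Set K) (hC : IsClopen C) (g : C(K, ℝ)) : C(K, ℝ) :=
  ⟨C.indicator g, by
    apply Continuous.indicator _ g.continuous
    rw [hC.frontier_eq]
    simp⟩

lemma cut_mem (C : Set K) (hC : IsClopen C) (g : C(K, ℝ)) (t : K) (ht : t ∈ C) :
    cut C hC g t = g t := indicator_of_mem ht g

lemma cut_not_mem (C : Set K) (hC : IsClopen C) (g : C(K, ℝ)) (t : K) (ht : t ∉ C) :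
    cut C hC g t = 0 := indicator_of_notMem ht g

lemma cut_D (Z C : Set K) (hC : IsClopen C) (g : C(K, ℝ)) (hg : g ∈ D Z) :
    cut C hC g ∈ D Z := by
  rw [mem_D] at hg ⊢
  refine ⟨fun t ht => ?_, fun t => ?_⟩
  · by_cases h : t ∈ C
    · rw [cut_mem C hC g t h]; exact hg.1 t ht
    · exact cut_not_mem C hC g t h
  · by_cases h : t ∈ C
    · rw [cut_mem C hC g t h]; exact hg.2 t
    · exact ⟨0, by rw [cut_not_mem C hC g t h]; simp⟩

lemma approx (Z : Set K)
    (hloc : ∀ t ∉ Z, ∀ U : Set K, IsOpen U → t ∈ U → ∃ C : Set K, IsClopen C ∧ t ∈ C ∧ C ⊆ U)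
    (hZ : IsClosed Z) (h : C(K, ℝ)) (a : ℝ) (ha : 1 < a) (hha : ∀ t ∈ Z, |h t| < a) :
    ∃ g ∈ D Z, ∀ t, |h t - g t| ≤ a := by
  have hScl : IsClosed {t : K | a ≤ |h t|} := isClosed_le continuous_const h.continuous.abs
  have key : ∃ C : Set K, IsClopen C ∧ {t : K | a ≤ |h t|} ⊆ C ∧
      ∃ g ∈ D Z, (∀ t ∉ C, g t = 0) ∧ ∀ t ∈ C, |h t - g t| ≤ a := by
    refine hScl.isCompact.induction_on
      (p := fun S => ∃ C : Set K, IsClopen C ∧ S ⊆ C ∧
        ∃ g ∈ D Z, (∀ t ∉ C, g t = 0) ∧ ∀ t ∈ C, |h t - g t| ≤ a) ?_ ?_ ?_ ?_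
    · exact ⟨∅, isClopen_empty, Subset.refl _, 0, AddSubgroup.zero_mem _, by simp, by simp⟩
    · rintro s t hst ⟨C, hC, hSC, hr⟩
      exact ⟨C, hC, hst.trans hSC, hr⟩
    · rintro s t ⟨C, hC, hSC, g, hg, hg1, hg2⟩ ⟨C', hC', hSC', g', hg', hg1', hg2'⟩
      refine ⟨C ∪ C', hC.union hC', union_subset_union hSC hSC',
        g + cut Cᶜ hC.compl g', AddSubgroup.add_mem _ hg (cut_D _ _ _ _ hg'), ?_, ?_⟩
      · intro x hx
        rw [mem_union, not_or] at hx
        rw [ContinuousMap.add_apply, hg1 x hx.1, cut_mem _ _ _ _ hx.1, hg1' x hx.2, add_zero]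
      · intro x hx
        by_cases hxC : x ∈ C
        · rw [ContinuousMap.add_apply, cut_not_mem _ _ _ _ (by simpa using hxC), add_zero]
          exact hg2 x hxC
        · have hxC' : x ∈ C' := hx.resolve_left hxC
          rw [ContinuousMap.add_apply, hg1 x hxC, cut_mem _ _ _ _ hxC, zero_add]
          exact hg2' x hxC'
    · intro x hx
      have hxZ : x ∉ Z := by
        intro hxZ
        exact absurd (hha x hxZ) (not_lt.mpr hx)
      set k : ℤ := round (h x / 2) with hk
      have hround : |h x - 2 * k| ≤ 1 := by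
        have := abs_sub_round (h x / 2)
        rw [← hk] at this
        have h2 : h x - 2 * k = 2 * (h x / 2 - k) := by ring
        rw [h2, abs_mul, abs_two]
        linarith
      have hO : IsOpen ({s : K | |h s - h x| < a - 1} ∩ Zᶜ) := by
        apply IsOpen.inter _ hZ.isOpen_compl
        exact isOpen_lt ((h.continuous.sub continuous_const).abs) continuous_const
      obtain ⟨C, hC, hxC, hCO⟩ := hloc x hxZ _ hO ⟨by
        change |h x - h x| < a - 1
        rw [sub_self, abs_zero]; linarith, hxZ⟩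
      refine ⟨C, mem_nhdsWithin_of_mem_nhds (hC.isOpen.mem_nhds hxC), C, hC, Subset.refl _,
        cut C hC (ContinuousMap.const K (2 * (k : ℝ))), ?_, ?_, ?_⟩
      · rw [mem_D]
        refine ⟨fun t ht => ?_, fun t => ?_⟩
        · have : t ∉ C := fun htC => (hCO htC).2 ht
          exact cut_not_mem _ _ _ _ this
        · by_cases htC : t ∈ C
          · exact ⟨k, by rw [cut_mem _ _ _ _ htC]; rfl⟩
          · exact ⟨0, by rw [cut_not_mem _ _ _ _ htC]; simp⟩
      · intro t ht
        exact cut_not_mem _ _ _ _ ht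
      · intro t ht
        rw [cut_mem _ _ _ _ ht]
        change |h t - 2 * (k : ℝ)| ≤ a
        have h1 : |h t - h x| < a - 1 := (hCO ht).1
        calc |h t - 2 * (k : ℝ)| = |(h t - h x) + (h x - 2 * k)| := by ring_nf
          _ ≤ |h t - h x| + |h x - 2 * k| := abs_add_le _ _
          _ ≤ a := by linarith
  obtain ⟨C, -, hSC, g, hg, hg1, hg2⟩ := key
  refine ⟨g, hg, fun t => ?_⟩
  by_cases ht : t ∈ C
  · exact hg2 t ht
  · rw [hg1 t ht, sub_zero]
    by_contra hcon
    push Not at hcon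
    exact ht (hSC hcon.le)

lemma one_le_of_mem {X : Type*} [NormedAddCommGroup X] [NormedSpace ℝ X] [Nontrivial X] (r : ℝ)
    (P : Set X) (hd : RDense P r) (hs : TwoSeparated P) : 1 ≤ r := by
  by_contra hcon
  push Not at hcon
  obtain ⟨e, he⟩ := exists_norm_eq X (zero_le_one' ℝ)
  obtain ⟨p, hp, -⟩ := hd 0
  obtain ⟨q, hq, hqd⟩ := hd (p + e)
  have hne : p ≠ q := by
    rintro rfl
    rw [add_sub_cancel_left, he] at hqd
    linarith
  have h1 := hs p hp q hq hne
  have h2 : ‖p - q‖ ≤ ‖p + e - q‖ + ‖e‖ := by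
    have : p - q = (p + e - q) - e := by abel
    rw [this]
    exact norm_sub_le _ _
  rw [he] at h2
  linarith

theorem gammaStar_eq_one [Nonempty K] (Z : Set K) (hZ : IsClosed Z)
    [TopologicalSpace.SeparableSpace C(Z, ℝ)]
    (hper : ∀ U : Set Z, IsOpen U → U.Nonempty → U.Infinite)
    (hloc : ∀ t ∉ Z, ∀ U : Set K, IsOpen U → t ∈ U → ∃ C : Set K, IsClopen C ∧ t ∈ C ∧ C ⊆ U) :
    gammaStar C(K, ℝ) = 1 := by
  have : CompactSpace Z := isCompact_iff_compactSpace.mp hZ.isCompact
  have hupper : ∀ ε : ℝ, 0 < ε → (1 + ε) ∈ {r : ℝ | 0 < r ∧ ∃ P : AddSubgroup C(K, ℝ),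
      RDense (P : Set C(K, ℝ)) r ∧ TwoSeparated (P : Set C(K, ℝ))} := by
    intro ε hε
    refine ⟨by linarith, ?_⟩
    obtain ⟨P, hP1, hP2⟩ := exists_lattice Z hZ hper (1 + ε / 3) (by linarith)
    refine ⟨P ⊔ D Z, ?_, ?_⟩
    · intro f
      obtain ⟨y, hy, hyf⟩ := hP2 (R Z f) (ε / 3) (by linarith)
      obtain ⟨g, hg, hgh⟩ := approx Z hloc hZ (f - y) (1 + ε) (by linarith) (by
        intro t ht
        have h1 : |(R Z f - R Z y) ⟨t, ht⟩| ≤ ‖R Z f - R Z y‖ := by
          have := ContinuousMap.norm_coe_le_norm (R Z f - R Z y) ⟨t, ht⟩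
          rwa [Real.norm_eq_abs] at this
        have h2 : (R Z f - R Z y) ⟨t, ht⟩ = (f - y) t := rfl
        rw [h2] at h1
        linarith)
      refine ⟨y + g, ?_, ?_⟩
      · exact AddSubgroup.mem_sup.mpr ⟨y, hy, g, hg, rfl⟩
      · rw [ContinuousMap.norm_le _ (by linarith)]
        intro t
        have := hgh t
        rw [Real.norm_eq_abs]
        have h3 : (f - (y + g)) t = (f - y) t - g t := by
          simp only [ContinuousMap.sub_apply, ContinuousMap.add_apply]; ring
        rw [h3]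
        exact this
    · intro p hp q hq hpq
      have hmem : p - q ∈ P ⊔ D Z := AddSubgroup.sub_mem _ hp hq
      have hne : p - q ≠ 0 := sub_ne_zero.mpr hpq
      generalize p - q = w at hmem hne
      obtain ⟨y, hy, g, hg, rfl⟩ := AddSubgroup.mem_sup.mp hmem
      by_cases hy0 : y = 0
      · subst hy0
        rw [zero_add] at hne ⊢
        obtain ⟨t, ht⟩ : ∃ t, g t ≠ 0 := by
          by_contra hcon
          push Not at hcon
          exact hne (ContinuousMap.ext hcon)
        obtain ⟨k, hk⟩ := hg.2 t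
        have hk0 : k ≠ 0 := by
          rintro rfl
          rw [hk] at ht
          simp at ht
        have h1 : (1 : ℝ) ≤ |(k : ℝ)| := by
          have : (1 : ℤ) ≤ |k| := Int.one_le_abs hk0
          exact_mod_cast this
        have h2 := ContinuousMap.norm_coe_le_norm g t
        rw [hk, Real.norm_eq_abs, abs_mul, abs_two] at h2
        linarith
      · have h1 := hP1 y hy hy0
        have h2 : R Z (y + g) = R Z y := by
          ext t
          rw [R_apply, R_apply, ContinuousMap.add_apply, hg.1 t t.2, add_zero]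
        rw [← h2] at h1
        refine h1.trans ?_
        rw [ContinuousMap.norm_le _ (norm_nonneg _)]
        intro t
        exact ContinuousMap.norm_coe_le_norm (y + g) (t : K)
  have hbdd : BddBelow {r : ℝ | 0 < r ∧ ∃ P : AddSubgroup C(K, ℝ),
      RDense (P : Set C(K, ℝ)) r ∧ TwoSeparated (P : Set C(K, ℝ))} := ⟨0, fun r hr => hr.1.le⟩
  apply le_antisymm
  · apply le_of_forall_pos_le_add
    intro ε hε
    exact csInf_le hbdd (hupper ε hε)
  · apply le_csInf ⟨_, hupper 1 one_pos⟩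
    rintro r ⟨-, P, hP1, hP2⟩
    exact one_le_of_mem r _ hP1 hP2


/-- Every compact metrisable space. -/
theorem gammaStar_metrizable [Nonempty K] [TopologicalSpace.MetrizableSpace K] :
    gammaStar C(K, ℝ) = 1 := by
  letI := TopologicalSpace.metrizableSpaceMetric K
  obtain ⟨V, Z, hV, hZ, hVZ⟩ := exists_countable_union_perfect_of_isClosed
    (isClosed_univ : IsClosed (univ : Set K))
  have : CompactSpace Z := isCompact_iff_compactSpace.mp hZ.closed.isCompact
  apply gammaStar_eq_one Z hZ.closed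
  · intro U hU hUne
    rintro (hfin : U.Finite)
    obtain ⟨x, hx⟩ := hUne
    obtain ⟨O, hO, rfl⟩ := isOpen_induced_iff.mp hU
    have hacc := hZ.acc x x.2
    rw [accPt_iff_nhds] at hacc
    have hF : (Subtype.val '' ((Subtype.val ⁻¹' O : Set Z) \ {x}) : Set K).Finite :=
      (hfin.sdiff).image _
    have hnb : O \ (Subtype.val '' ((Subtype.val ⁻¹' O : Set Z) \ {x})) ∈ 𝓝 (x : K) := by
      apply (hO.sdiff hF.isClosed).mem_nhds
      refine ⟨hx, ?_⟩
      rintro ⟨y, hy, hyx⟩
      exact hy.2 (Subtype.ext hyx)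
    obtain ⟨y, ⟨⟨hyO, hyn⟩, hyZ⟩, hyx⟩ := hacc _ hnb
    apply hyn
    refine ⟨⟨y, hyZ⟩, ⟨hyO, ?_⟩, rfl⟩
    intro h
    exact hyx (congrArg Subtype.val h)
  · intro t ht U hU htU
    have hcount : (Zᶜ : Set K).Countable := by
      apply hV.mono
      intro s hs
      have : s ∈ V ∪ Z := by rw [← hVZ]; trivial
      exact this.resolve_right hs
    obtain ⟨r0, hr0, hball⟩ := Metric.mem_nhds_iff.mp
      ((hU.inter hZ.closed.isOpen_compl).mem_nhds ⟨htU, ht⟩)
    -- choose a radius avoided by distances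
    have hdc : ((fun s => dist s t) '' (Zᶜ : Set K)).Countable := hcount.image _
    obtain ⟨r, hr, hrd⟩ : ∃ r ∈ Ioo 0 r0, r ∉ (fun s => dist s t) '' (Zᶜ : Set K) := by
      by_contra hcon
      push Not at hcon
      have : (Ioo 0 r0).Countable := hdc.mono hcon
      exact (Cardinal.Real.Ioo_countable_iff.mp this).not_gt hr0
    have hsub : Metric.closedBall t r ⊆ Metric.ball t r0 := Metric.closedBall_subset_ball hr.2
    have heq : Metric.closedBall t r = Metric.ball t r := by
      apply Subset.antisymm _ Metric.ball_subset_closedBall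
      intro s hs
      rcases lt_or_eq_of_le (Metric.mem_closedBall.mp hs) with h | h
      · exact h
      · exact absurd ⟨s, (hball (hsub hs)).2, h⟩ hrd
    refine ⟨Metric.ball t r, ⟨?_, Metric.isOpen_ball⟩, Metric.mem_ball_self hr.1, ?_⟩
    · rw [← heq]; exact Metric.isClosed_closedBall
    · exact fun s hs => (hball (hsub (Metric.ball_subset_closedBall hs))).1

end Top

end Pool.Agent.V1120.CKLattice
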