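import Pool.Agent.V1120.Luzin
import Pool.Agent.Helper332.SAD.P_closure_le

/-!
# Luzin's axiom and compact continuous images of `C_p(K)` for scattered and left-separated `K`
-/

set_option autoImplicit false

open Set Topology Filter
open Cardinal hiding univ

namespace Pool.Agent.V1120.LuzinSc

open Pool.Agent.Helper332.SADSpace (Scattered LeftSeparated)

variable {K : Type}

/-- the transfinite enumeration of a scattered space by successive isolated points -/
noncomputable def O (c : Set K → K) (α : Ordinal.{0}) : Set K :=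
  ⋃ β : Iio α, insert (c (O c β.1)) (O c β.1)
termination_by α
decreasing_by exact β.2

theorem mem_O {c : Set K → K} {α : Ordinal.{0}} {x : K} :
    x ∈ O c α ↔ ∃ β < α, x = c (O c β) ∨ x ∈ O c β := by
  rw [O, mem_iUnion]
  constructor
  · rintro ⟨⟨β, hβ⟩, h⟩
    exact ⟨β, hβ, h⟩
  · rintro ⟨β, hβ, h⟩
    exact ⟨⟨β, hβ⟩, h⟩

theorem mono {c : Set K → K} {α β : Ordinal.{0}} (h : β < α) : insert (c (O c β)) (O c β) ⊆ O c α := by
  intro x hx
  exact mem_O.2 ⟨β, h, hx⟩

theorem exists_right [TopologicalSpace K] (hK : Scattered K) :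
    ∃ (U : K → Set K), (∀ x, x ∉ U x) ∧ (∀ x, IsOpen (insert x (U x))) ∧
      ∀ x y, x ≠ y → insert x (U x) ⊆ U y ∨ insert y (U y) ⊆ U x := by
  classical
  by_cases hne : Nonempty K
  swap
  · exact ⟨fun _ => ∅, fun x => absurd ⟨x⟩ hne, fun x => absurd ⟨x⟩ hne, fun x => absurd ⟨x⟩ hne⟩
  obtain ⟨k0⟩ := hne
  have hc : ∀ V : Set K, ∃ x : K, V ≠ univ → x ∉ V ∧ ∃ W : Set K, IsOpen W ∧ W ∩ Vᶜ = {x} := by
    intro V
    by_cases hV : V = univ
    · exact ⟨k0, fun h => absurd hV h⟩
    · obtain ⟨x, hx, W, hW, hWx⟩ := hK Vᶜ (nonempty_compl.2 hV)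
      exact ⟨x, fun _ => ⟨hx, W, hW, hWx⟩⟩
  choose c hc using hc
  have hins : ∀ V : Set K, IsOpen V → IsOpen (insert (c V) V) := by
    intro V hV
    by_cases h : V = univ
    · rw [h, insert_eq_of_mem (mem_univ _)]
      exact isOpen_univ
    · obtain ⟨h1, W, hW, hWx⟩ := hc V h
      have : insert (c V) V = V ∪ W := by
        ext z
        constructor
        · rintro (rfl | hz)
          · right
            have : c V ∈ W ∩ Vᶜ := by rw [hWx]; rfl
            exact this.1
          · exact Or.inl hz
        · rintro (hz | hz)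
          · exact Or.inr hz
          · by_cases hzV : z ∈ V
            · exact Or.inr hzV
            · left
              have : z ∈ W ∩ Vᶜ := ⟨hz, hzV⟩
              rw [hWx] at this
              exact this
      rw [this]
      exact hV.union hW
  have hopen : ∀ α : Ordinal.{0}, IsOpen (O c α) := by
    intro α
    induction α using WellFoundedLT.induction with
    | ind α ih =>
      rw [O]
      exact isOpen_iUnion fun β => hins _ (ih β.1 β.2)
  have hex : ∃ α : Ordinal.{0}, O c α = univ := by
    by_contra hcon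
    push Not at hcon
    refine not_injective_of_ordinal (fun α : Ordinal.{0} => c (O c α)) ?_
    intro α β hab
    rcases lt_trichotomy α β with h | h | h
    · exfalso
      have h1 : c (O c α) ∈ O c β := mono h (mem_insert _ _)
      exact (hc _ (hcon β)).1 (by rw [← show c (O c α) = c (O c β) from hab]; exact h1)
    · exact h
    · exfalso
      have h1 : c (O c β) ∈ O c α := mono h (mem_insert _ _)
      exact (hc _ (hcon α)).1 (by rw [show c (O c α) = c (O c β) from hab]; exact h1)
  obtain ⟨θ, hθ⟩ := hex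
  have hb : ∀ x : K, ∃ β : Ordinal.{0}, x ∉ O c β ∧ x = c (O c β) := by
    intro x
    let P : Set Ordinal.{0} := {α | x ∈ O c α}
    have hP : P.Nonempty := ⟨θ, by change x ∈ O c θ; rw [hθ]; trivial⟩
    have hm := WellFounded.min_mem (wellFounded_lt (α := Ordinal.{0})) P hP
    obtain ⟨β, hβ, h⟩ := mem_O.1 hm
    have hxβ : x ∉ O c β := fun h' =>
      WellFounded.not_lt_min (wellFounded_lt (α := Ordinal.{0})) (s := P) h' hβ
    exact ⟨β, hxβ, h.resolve_right hxβ⟩
  choose b hb1 hb2 using hb
  refine ⟨fun x => O c (b x), hb1, fun x => ?_, fun x y hxy => ?_⟩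
  · have := hins _ (hopen (b x))
    rwa [← hb2 x] at this
  · rcases lt_trichotomy (b x) (b y) with h | h | h
    · left
      have := mono (c := c) h
      rwa [← hb2 x] at this
    · exact absurd (by rw [hb2 x, hb2 y, h]) hxy
    · right
      have := mono (c := c) h
      rwa [← hb2 y] at this

/-- In a scattered regular space the closure of a countable set has at most `𝔠` points. -/
theorem closure_countable [TopologicalSpace K] [RegularSpace K] (hK : Scattered K) (S : Set K)
    (hS : S.Countable) : #(closure S) ≤ 𝔠 := by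
  obtain ⟨U, hU, hUo, hUc⟩ := exists_right hK
  have h1 : ∀ x : K, ∃ V : Set K, IsOpen V ∧ x ∈ V ∧ closure V ⊆ insert x (U x) := by
    intro x
    have hV : insert x (U x) ∈ 𝓝 x := (hUo x).mem_nhds (mem_insert _ _)
    obtain ⟨t, ht, htc, hts⟩ := exists_mem_nhds_isClosed_subset hV
    refine ⟨interior t, isOpen_interior, mem_interior_iff_mem_nhds.2 ht, ?_⟩
    exact (closure_minimal interior_subset htc).trans hts
  choose V hVo hVx hVU using h1
  let F : closure S → Set S := fun x => {s | (s : K) ∈ V x}
  have hF : Function.Injective F := by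
    intro x y hxy
    have hset : V x ∩ S = V y ∩ S := by
      ext z
      constructor
      · rintro ⟨hz1, hz2⟩
        have : (⟨z, hz2⟩ : S) ∈ F x := hz1
        rw [hxy] at this
        exact ⟨this, hz2⟩
      · rintro ⟨hz1, hz2⟩
        have : (⟨z, hz2⟩ : S) ∈ F y := hz1
        rw [← hxy] at this
        exact ⟨this, hz2⟩
    have hx : (x : K) ∈ closure (V x ∩ S) := (hVo x).inter_closure ⟨hVx x, x.2⟩
    have hy : (y : K) ∈ closure (V y ∩ S) := (hVo y).inter_closure ⟨hVx y, y.2⟩
    by_contra hne
    have hne' : (x : K) ≠ y := fun h => hne (Subtype.ext h)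
    rcases hUc x y hne' with h | h
    · rw [← hset] at hy
      exact hU y (h (hVU x (closure_mono inter_subset_left hy)))
    · rw [hset] at hx
      exact hU x (h (hVU y (closure_mono inter_subset_left hx)))
  calc #(closure S) ≤ #(Set S) := Cardinal.mk_le_of_injective hF
    _ = 2 ^ #S := Cardinal.mk_set
    _ ≤ 2 ^ ℵ₀ := Cardinal.power_le_power_left two_ne_zero hS.le_aleph0
    _ = 𝔠 := Cardinal.two_power_aleph0

/-- Countable tightness. -/
def CountablyTight (K : Type) [TopologicalSpace K] : Prop :=
  ∀ (A : Set K) (x : K), x ∈ closure A → ∃ T ⊆ A, T.Countable ∧ x ∈ closure T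

theorem closure_le [TopologicalSpace K] [RegularSpace K] (hK : Scattered K)
    (ht : CountablyTight K) (A : Set K) (hA : #A ≤ ℵ₁) : #(closure A) ≤ 𝔠 := by
  have hsub : closure A ⊆ ⋃ s : ℕ → A, closure (Set.range fun n => (s n : K)) := by
    intro p hp
    obtain ⟨T, hTA, hTc, hpT⟩ := ht A p hp
    have hTn : T.Nonempty := by
      rw [Set.nonempty_iff_ne_empty]
      intro e
      rw [e, closure_empty] at hpT
      exact hpT
    obtain ⟨f, hf⟩ := hTc.exists_eq_range hTn
    rw [Set.mem_iUnion]
    refine ⟨fun n => ⟨f n, hTA (by rw [hf]; exact Set.mem_range_self n)⟩, ?_⟩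
    rw [← hf]
    exact hpT
  calc #(closure A) ≤ #(⋃ s : ℕ → A, closure (Set.range fun n => (s n : K))) :=
        Cardinal.mk_le_mk_of_subset hsub
    _ ≤ Cardinal.sum fun s : ℕ → A => #(closure (Set.range fun n => (s n : K))) :=
        Cardinal.mk_iUnion_le_sum_mk
    _ ≤ Cardinal.sum fun _ : ℕ → A => 𝔠 := by
        apply Cardinal.sum_le_sum
        intro s
        exact closure_countable hK _ (Set.countable_range _)
    _ = #(ℕ → A) * 𝔠 := by rw [Cardinal.sum_const']
    _ ≤ 𝔠 * 𝔠 := by
        apply mul_le_mul_left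
        have e : #(ℕ → A) = #A ^ ℵ₀ := by
          rw [← Cardinal.mk_nat, Cardinal.power_def]
        rw [e, ← Cardinal.continuum_power_aleph0]
        exact Cardinal.power_le_power_right (hA.trans Cardinal.aleph_one_le_continuum)
    _ = 𝔠 := Cardinal.continuum_mul_self

end Pool.Agent.V1120.LuzinSc
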