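import Mathlib

set_option autoImplicit false

namespace Pool.Agent.V1120.Sanov

open Matrix MatrixGroups

/-- upper transvection -/
def U (a : ℤ) : SL(2, ℤ) := ⟨!![1, a; 0, 1], by simp [Matrix.det_fin_two]⟩
/-- lower transvection -/
def L (b : ℤ) : SL(2, ℤ) := ⟨!![1, 0; b, 1], by simp [Matrix.det_fin_two]⟩

theorem U_mul (a b : ℤ) : U a * U b = U (a + b) := by
  apply Subtype.ext
  rw [Matrix.SpecialLinearGroup.coe_mul]
  simp [U, add_comm]

theorem L_mul (a b : ℤ) : L a * L b = L (a + b) := by
  apply Subtype.ext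
  rw [Matrix.SpecialLinearGroup.coe_mul]
  simp [L]

theorem U_zero : U 0 = 1 := by
  ext i j; fin_cases i <;> fin_cases j <;> simp [U]

theorem L_zero : L 0 = 1 := by
  ext i j; fin_cases i <;> fin_cases j <;> simp [L]

/-- hom from the integers -/
def Uhom : Multiplicative ℤ →* SL(2, ℤ) where
  toFun n := U n.toAdd
  map_one' := U_zero
  map_mul' _ _ := (U_mul _ _).symm

def Lhom : Multiplicative ℤ →* SL(2, ℤ) where
  toFun n := L n.toAdd
  map_one' := L_zero
  map_mul' _ _ := (L_mul _ _).symm

theorem U_zpow (a n : ℤ) : U a ^ n = U (n * a) := by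
  have h1 : U a = Uhom (Multiplicative.ofAdd a) := rfl
  rw [h1, ← map_zpow]
  show U _ = U _
  congr 1

theorem L_zpow (a n : ℤ) : L a ^ n = L (n * a) := by
  have h1 : L a = Lhom (Multiplicative.ofAdd a) := rfl
  rw [h1, ← map_zpow]
  show L _ = L _
  congr 1

/-- Sanov's theorem. -/
theorem sanov (α β : ℤ) (hα : 2 ≤ |α|) (hβ : 2 ≤ |β|) :
    Function.Injective (FreeGroup.lift ![U α, L β]) := by
  classical
  let θ : SL(2, ℤ) →* ((Fin 2 → ℤ) ≃ₗ[ℤ] (Fin 2 → ℤ)) := Matrix.SpecialLinearGroup.toLin'
  let H : Fin 2 → Type := fun _ => FreeGroup Unit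
  let f : ∀ i, H i →* ((Fin 2 → ℤ) ≃ₗ[ℤ] (Fin 2 → ℤ)) := fun i =>
    FreeGroup.lift fun _ => θ (![U α, L β] i)
  let X : Fin 2 → Set (Fin 2 → ℤ) := ![{v | |v 1| < |v 0|}, {v | |v 0| < |v 1|}]
  have key : Function.Injective (Monoid.CoprodI.lift f) := by
    apply Monoid.CoprodI.lift_injective_of_ping_pong f _ X
    · intro i
      fin_cases i
      · exact ⟨![1, 0], by simp [X]⟩
      · exact ⟨![0, 1], by simp [X]⟩
    · intro i j hij
      fin_cases i <;> fin_cases j
      · exact absurd rfl hij
      · refine Set.disjoint_left.mpr ?_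
        intro v hv hv'
        simp only [X, Fin.zero_eta, Fin.mk_one, Matrix.cons_val_zero, Matrix.cons_val_one,
          Set.mem_ofPred_eq] at hv hv'
        omega
      · refine Set.disjoint_left.mpr ?_
        intro v hv hv'
        simp only [X, Fin.zero_eta, Fin.mk_one, Matrix.cons_val_zero, Matrix.cons_val_one,
          Set.mem_ofPred_eq] at hv hv'
        omega
      · exact absurd rfl hij
    · intro i j hij
      refine FreeGroup.freeGroupUnitEquivInt.forall_congr_left.mpr ?_
      intro n hne1
      have hn : n ≠ 0 := by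
        rintro rfl
        apply hne1
        simp [H, FreeGroup.freeGroupUnitEquivInt]
      have hf : f i (FreeGroup.freeGroupUnitEquivInt.symm n) = θ ((![U α, L β] i) ^ n) := by
        change FreeGroup.lift (fun _ => θ (![U α, L β] i)) (FreeGroup.of () ^ n) = _
        simp only [map_zpow, FreeGroup.lift_apply_of]
      rw [hf]
      rintro _ ⟨v, hv, rfl⟩
      have hn1 : 1 ≤ |n| := Int.one_le_abs hn
      fin_cases i <;> fin_cases j
      · exact absurd rfl hij
      · simp only [X, Fin.zero_eta, Fin.mk_one, Matrix.cons_val_zero, Matrix.cons_val_one,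
          Set.mem_ofPred_eq, U_zpow] at hv ⊢
        have h0 : (θ (U (n * α)) • v) 0 = v 0 + n * α * v 1 := by
          change ((Matrix.SpecialLinearGroup.toLin' (U (n * α))) v) 0 = _
          rw [Matrix.SpecialLinearGroup.toLin'_apply]
          simp [U, Matrix.toLin'_apply, Matrix.mulVec, dotProduct, Fin.sum_univ_two]
        have h1 : (θ (U (n * α)) • v) 1 = v 1 := by
          change ((Matrix.SpecialLinearGroup.toLin' (U (n * α))) v) 1 = _
          rw [Matrix.SpecialLinearGroup.toLin'_apply]
          simp [U, Matrix.toLin'_apply, Matrix.mulVec, dotProduct, Fin.sum_univ_two]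
        rw [h0, h1]
        have h2 : 2 * |v 1| ≤ |n * α * v 1| := by
          rw [abs_mul, abs_mul]
          have : 2 ≤ |n| * |α| := by nlinarith [abs_nonneg n, abs_nonneg α]
          nlinarith [abs_nonneg (v 1)]
        have h3 : |n * α * v 1| ≤ |v 0 + n * α * v 1| + |v 0| := by
          have := abs_sub (v 0 + n * α * v 1) (v 0)
          simpa using this
        omega
      · simp only [X, Fin.zero_eta, Fin.mk_one, Matrix.cons_val_zero, Matrix.cons_val_one,
          Set.mem_ofPred_eq, L_zpow] at hv ⊢
        have h0 : (θ (L (n * β)) • v) 0 = v 0 := by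
          change ((Matrix.SpecialLinearGroup.toLin' (L (n * β))) v) 0 = _
          rw [Matrix.SpecialLinearGroup.toLin'_apply]
          simp [L, Matrix.toLin'_apply, Matrix.mulVec, dotProduct, Fin.sum_univ_two]
        have h1 : (θ (L (n * β)) • v) 1 = n * β * v 0 + v 1 := by
          change ((Matrix.SpecialLinearGroup.toLin' (L (n * β))) v) 1 = _
          rw [Matrix.SpecialLinearGroup.toLin'_apply]
          simp [L, Matrix.toLin'_apply, Matrix.mulVec, dotProduct, Fin.sum_univ_two]
        rw [h0, h1]
        have h2 : 2 * |v 0| ≤ |n * β * v 0| := by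
          rw [abs_mul, abs_mul]
          have : 2 ≤ |n| * |β| := by nlinarith [abs_nonneg n, abs_nonneg β]
          nlinarith [abs_nonneg (v 0)]
        have h3 : |n * β * v 0| ≤ |n * β * v 0 + v 1| + |v 1| := by
          have := abs_sub (n * β * v 0 + v 1) (v 1)
          simpa using this
        omega
      · exact absurd rfl hij
    · right
      refine ⟨0, ?_⟩
      change 3 ≤ Cardinal.mk (FreeGroup Unit)
      rw [FreeGroup.freeGroupUnitEquivInt.cardinal_eq, Cardinal.mk_denumerable]
      exact Cardinal.natCast_le_aleph0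
  have hcomp : (θ.comp (FreeGroup.lift ![U α, L β])) =
      (Monoid.CoprodI.lift f).comp (@freeGroupEquivCoprodI (Fin 2)).toMonoidHom := by
    ext1 i
    simp [f, H]
  have hinj : Function.Injective (θ.comp (FreeGroup.lift ![U α, L β])) := by
    rw [hcomp, MonoidHom.coe_comp]
    exact key.comp (MulEquiv.injective freeGroupEquivCoprodI)
  intro x y hxy
  apply hinj
  simp [hxy]

end Pool.Agent.V1120.Sanov
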